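import Pool.Agent.K6.H17.HO.Stm

set_option autoImplicit false

namespace Pool.Agent.K6.H17.HO

open Finset PowerSeries

theorem alg_expand {A : Type} [Ring A] [Algebra (PowerSeries ℚ) A] (k : ℕ) (hk : 1 ≤ k) :
    ∀ (N : ℕ) (E D : Fin N → A) (S : Fin N → Bool), ∃ R : A,
      (List.ofFn fun i => if S i then E i + (X ^ k : PowerSeries ℚ) • D i else E i).prod =
        (List.ofFn E).prod + (X ^ k : PowerSeries ℚ) • (∑ i : Fin N, if S i then
          ((List.ofFn E).take i).prod * D i * ((List.ofFn E).drop (i + 1)).prod else 0) +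
        (X ^ (k + 1) : PowerSeries ℚ) • R := by
  intro N
  induction N with
  | zero =>
    intro E D S
    exact ⟨0, by simp⟩
  | succ N ih =>
    intro E D S
    obtain ⟨R, hR⟩ := ih (fun i => E i.succ) (fun i => D i.succ) (fun i => S i.succ)
    have hsum : (∑ i : Fin (N + 1), if S i then
        ((List.ofFn E).take i).prod * D i * ((List.ofFn E).drop (i + 1)).prod else 0) =
        (if S 0 then D 0 * (List.ofFn fun i => E i.succ).prod else 0) +
          E 0 * (∑ i : Fin N, if S i.succ then ((List.ofFn fun i => E i.succ).take i).prod *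
            D i.succ * ((List.ofFn fun i => E i.succ).drop (i + 1)).prod else 0) := by
      rw [Fin.sum_univ_succ, Finset.mul_sum]
      congr 1
      · by_cases h : S 0
        · simp [h, List.ofFn_succ]
        · simp [h]
      · refine Finset.sum_congr rfl fun i _ => ?_
        by_cases h : S i.succ
        · simp [h, List.ofFn_succ, mul_assoc]
        · simp [h]
    rw [hsum, List.ofFn_succ, List.prod_cons, hR, List.ofFn_succ (f := E), List.prod_cons]
    set P := (List.ofFn fun i => E i.succ).prod
    set Q := ∑ i : Fin N, if S i.succ then ((List.ofFn fun i => E i.succ).take i).prod *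
            D i.succ * ((List.ofFn fun i => E i.succ).drop (i + 1)).prod else 0
    by_cases h : S 0
    · simp only [h, if_true]
      refine ⟨E 0 * R + (X ^ (k - 1) : PowerSeries ℚ) • (D 0 * Q) +
        (X ^ k : PowerSeries ℚ) • (D 0 * R), ?_⟩
      have e1 : (X ^ (k + 1) : PowerSeries ℚ) * X ^ (k - 1) = X ^ k * X ^ k := by
        rw [← pow_add, ← pow_add]
        congr 1
        omega
      have e2 : (X ^ (k + 1) : PowerSeries ℚ) * X ^ k = X ^ k * X ^ (k + 1) := by
        rw [mul_comm]
      simp only [add_mul, mul_add, smul_add, smul_mul_assoc, mul_smul_comm, smul_smul, e1, e2]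
      abel
    · simp only [h]
      refine ⟨E 0 * R, ?_⟩
      simp only [mul_add, mul_smul_comm, if_false, Bool.false_eq_true, zero_add]

theorem t_ALG : S_ALG := by
  intro A _ _ Λ k hk N E D u v
  have key : ∀ S : Fin N → Bool, ∃ R : PowerSeries ℚ,
      Λ (u * (List.ofFn fun i => if S i then E i + (X ^ k : PowerSeries ℚ) • D i else E i).prod * v) =
        Λ (u * (List.ofFn E).prod * v) + X ^ k * (∑ i : Fin N, if S i then
          Λ (u * ((List.ofFn E).take i).prod * D i * ((List.ofFn E).drop (i + 1)).prod * v) else 0) +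
        X ^ (k + 1) * R := by
    intro S
    obtain ⟨R, hR⟩ := alg_expand k hk N E D S
    refine ⟨Λ (u * R * v), ?_⟩
    rw [hR]
    simp only [mul_add, add_mul, mul_smul_comm, smul_mul_assoc, map_add, map_smul, smul_eq_mul]
    congr 3
    rw [Finset.mul_sum, Finset.sum_mul, map_sum]
    refine Finset.sum_congr rfl fun i _ => ?_
    by_cases h : S i
    · simp only [h, if_true, mul_assoc]
    · simp [h]
  refine ⟨fun S j hj => ?_, fun i => coeff 0 (Λ (u * ((List.ofFn E).take i).prod * D i *
      ((List.ofFn E).drop (i + 1)).prod * v)), fun S => ?_, fun i => rfl⟩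
  · obtain ⟨R, hR⟩ := key S
    rw [hR, map_add, map_add, coeff_X_pow_mul', coeff_X_pow_mul', if_neg (by omega),
      if_neg (by omega), add_zero, add_zero]
  · obtain ⟨R, hR⟩ := key S
    rw [hR, map_add, map_add, coeff_X_pow_mul', coeff_X_pow_mul', if_pos le_rfl,
      if_neg (by omega), add_zero, Nat.sub_self, map_sum]
    congr 1
    refine Finset.sum_congr rfl fun i _ => ?_
    by_cases h : S i
    · simp only [h, if_true]
    · simp [h]

end Pool.Agent.K6.H17.HO
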