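import Pool.Agent.K6.H17.HO.Stm

/-! # Averaging over the exchanges of two values -/

set_option autoImplicit false

namespace Pool.Agent.K6.H17.HO

open Finset

theorem tog_tog {β : Type} [DecidableEq β] (a b : β) {N : ℕ} (S : Fin N → Bool) (B : Fin N → β) :
    tog a b S (tog a b S B) = B := by
  funext i
  unfold tog
  by_cases h : S i = true
  · simp [h]
  · simp [h]

theorem nact_le {β : Type} [DecidableEq β] (a b : β) {N : ℕ} (B : Fin N → β) :
    nact a b B ≤ N := by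
  unfold nact
  exact (Finset.card_filter_le _ _).trans (by simp)

theorem choose_bound (hCH : S_CH) (g : ℕ) :
    ((g.choose (g / 2) : ℕ) : ℝ) ≤ 2 ^ g * Real.sqrt (1 / (g + 1)) := by
  have h := hCH g
  have h' : ((g : ℝ) + 1) * ((g.choose (g / 2) : ℕ) : ℝ) ^ 2 ≤ 4 ^ g := by exact_mod_cast h
  have hg : (0 : ℝ) < (g : ℝ) + 1 := by positivity
  have h2 : ((g.choose (g / 2) : ℕ) : ℝ) ^ 2 ≤ (2 ^ g) ^ 2 * (1 / ((g : ℝ) + 1)) := by
    rw [mul_one_div, le_div_iff₀ hg, ← pow_mul, mul_comm g 2, pow_mul]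
    norm_num
    linarith
  calc ((g.choose (g / 2) : ℕ) : ℝ) = Real.sqrt (((g.choose (g / 2) : ℕ) : ℝ) ^ 2) :=
        (Real.sqrt_sq (by positivity)).symm
    _ ≤ Real.sqrt ((2 ^ g) ^ 2 * (1 / ((g : ℝ) + 1))) := Real.sqrt_le_sqrt h2
    _ = 2 ^ g * Real.sqrt (1 / (g + 1)) := by
      rw [Real.sqrt_mul (by positivity), Real.sqrt_sq (by positivity)]

theorem t_AVG : S_CH → S_BIN → S_AVG := by
  intro hCH hBIN β _ _ a b hab N F K hK hF
  have h1 : ∀ S : Fin N → Bool, ∑ B, F (tog a b S B) = ∑ B, F B := by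
    intro S
    exact Equiv.sum_comp (Function.Involutive.toPerm (tog a b S) (tog_tog a b S)) F
  have h2 : (2 : ℝ) ^ N * ∑ B, F B ≤ ∑ B : Fin N → β,
      K * ((2 : ℝ) ^ (N - nact a b B) * ((nact a b B).choose (nact a b B / 2) : ℝ)) := by
    calc (2 : ℝ) ^ N * ∑ B, F B = ∑ S : Fin N → Bool, ∑ B, F (tog a b S B) := by
          simp only [h1, Finset.sum_const, Finset.card_univ, nsmul_eq_mul]
          congr 1
          simp
      _ = ∑ B, ∑ S, F (tog a b S B) := Finset.sum_comm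
      _ ≤ _ := Finset.sum_le_sum fun B _ => hF B
  have h3 : ∀ B : Fin N → β,
      K * ((2 : ℝ) ^ (N - nact a b B) * ((nact a b B).choose (nact a b B / 2) : ℝ)) ≤
        2 ^ N * (K * Real.sqrt (1 / ((nact a b B : ℝ) + 1))) := by
    intro B
    have h4 := choose_bound hCH (nact a b B)
    have h5 : (2 : ℝ) ^ (N - nact a b B) * 2 ^ nact a b B = 2 ^ N := by
      rw [← pow_add, Nat.sub_add_cancel (nact_le a b B)]
    calc K * ((2 : ℝ) ^ (N - nact a b B) * ((nact a b B).choose (nact a b B / 2) : ℝ))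
        ≤ K * ((2 : ℝ) ^ (N - nact a b B) *
            (2 ^ nact a b B * Real.sqrt (1 / ((nact a b B : ℝ) + 1)))) := by gcongr
      _ = ((2 : ℝ) ^ (N - nact a b B) * 2 ^ nact a b B) *
            (K * Real.sqrt (1 / ((nact a b B : ℝ) + 1))) := by ring
      _ = _ := by rw [h5]
  have h6 : ∑ B, F B ≤ ∑ B : Fin N → β, K * Real.sqrt (1 / ((nact a b B : ℝ) + 1)) := by
    have h7 := h2.trans (Finset.sum_le_sum fun B _ => h3 B)
    rw [← Finset.mul_sum] at h7
    exact le_of_mul_le_mul_left h7 (by positivity)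
  refine h6.trans ?_
  rw [← Finset.mul_sum, mul_assoc]
  apply mul_le_mul_of_nonneg_left _ hK
  have h8 : (∑ B : Fin N → β, Real.sqrt (1 / ((nact a b B : ℝ) + 1))) ^ 2 ≤
      (Fintype.card β : ℝ) ^ N * ((Fintype.card β : ℝ) ^ (N + 1) / (2 * (N + 1))) := by
    have h9 := sq_sum_le_card_mul_sum_sq (s := (Finset.univ : Finset (Fin N → β)))
      (f := fun B => Real.sqrt (1 / ((nact a b B : ℝ) + 1)))
    refine h9.trans ?_
    have h10 : ((#(Finset.univ : Finset (Fin N → β)) : ℕ) : ℝ) = (Fintype.card β : ℝ) ^ N := by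
      simp
    rw [h10]
    apply mul_le_mul_of_nonneg_left _ (by positivity)
    refine le_trans (le_of_eq ?_) (hBIN β a b hab N)
    refine Finset.sum_congr rfl fun B _ => ?_
    rw [Real.sq_sqrt (by positivity)]
  have h11 : 0 ≤ ∑ B : Fin N → β, Real.sqrt (1 / ((nact a b B : ℝ) + 1)) :=
    Finset.sum_nonneg fun B _ => Real.sqrt_nonneg _
  calc ∑ B : Fin N → β, Real.sqrt (1 / ((nact a b B : ℝ) + 1)) =
        Real.sqrt ((∑ B : Fin N → β, Real.sqrt (1 / ((nact a b B : ℝ) + 1))) ^ 2) :=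
        (Real.sqrt_sq h11).symm
    _ ≤ Real.sqrt ((Fintype.card β : ℝ) ^ N * ((Fintype.card β : ℝ) ^ (N + 1) / (2 * (N + 1)))) :=
        Real.sqrt_le_sqrt h8
    _ = (Fintype.card β : ℝ) ^ N * Real.sqrt ((Fintype.card β : ℝ) / (2 * (N + 1))) := by
        rw [show (Fintype.card β : ℝ) ^ N * ((Fintype.card β : ℝ) ^ (N + 1) / (2 * (N + 1))) =
          ((Fintype.card β : ℝ) ^ N) ^ 2 * ((Fintype.card β : ℝ) / (2 * (N + 1))) by ring,
          Real.sqrt_mul (by positivity), Real.sqrt_sq (by positivity)]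

end Pool.Agent.K6.H17.HO
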