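import Pool.Agent.K6.H17.HO.Stm2

/-!
# Whether the closure of a braid is a knot does not depend on the signs of the letters
-/

set_option autoImplicit false

namespace Pool.Agent.K6.H17.HO

open Pool.Agent.H835R2.Knot (Word Piece IsKnot Front Fits run comps)
open Pool.Agent.Y466.FT (Braid draw piece)

/-- two pieces with the same strands -/
def Same (p q : Piece) : Prop := (∀ F, p.act F = q.act F) ∧ (∀ F, p.Fits F ↔ q.Fits F) ∧
  (∀ F, p.closes F = q.closes F)

theorem Same.refl (p : Piece) : Same p p := ⟨fun _ => rfl, fun _ => Iff.rfl, fun _ => rfl⟩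

theorem same_all {D D' : Word} (h : List.Forall₂ Same D D') : ∀ F : Front,
    (Fits D F ↔ Fits D' F) ∧ comps D F = comps D' F ∧ run D F = run D' F := by
  induction h with
  | nil => intro F; exact ⟨Iff.rfl, rfl, rfl⟩
  | @cons p q D D' hp _ ih =>
    intro F
    obtain ⟨h1, h2, h3⟩ := ih (q.act F)
    refine ⟨?_, ?_, ?_⟩
    · show (p.Fits F ∧ Fits D (p.act F)) ↔ (q.Fits F ∧ Fits D' (q.act F))
      rw [hp.1 F, hp.2.1 F, h1]
    · show (if p.closes F then 1 else 0) + comps D (p.act F) =
        (if q.closes F then 1 else 0) + comps D' (q.act F)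
      rw [hp.1 F, hp.2.2 F, h2]
    · show run D (p.act F) = run D' (q.act F)
      rw [hp.1 F, h3]

theorem same_refl : ∀ D : Word, List.Forall₂ Same D D
  | [] => List.Forall₂.nil
  | p :: D => List.Forall₂.cons (Same.refl p) (same_refl D)

theorem same_piece (l l' : Bool × ℕ) (h : l.2 = l'.2) : Same (piece l) (piece l') := by
  obtain ⟨b, i⟩ := l
  obtain ⟨b', i'⟩ := l'
  have h' : i = i' := h
  subst h'
  cases b <;> cases b' <;> exact ⟨fun _ => rfl, fun _ => Iff.rfl, fun _ => rfl⟩

theorem same_draw : ∀ w w' : Braid, w.map Prod.snd = w'.map Prod.snd →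
    List.Forall₂ Same (draw w) (draw w')
  | [], [], _ => List.Forall₂.nil
  | [], l' :: w', h => by simp at h
  | l :: w, [], h => by simp at h
  | l :: w, l' :: w', h => by
    have h' : l.2 = l'.2 ∧ w.map Prod.snd = w'.map Prod.snd := by simpa using h
    exact List.Forall₂.cons (same_piece l l' h'.1) (same_draw w w' h'.2)

theorem same_append {D E D' E' : Word} (h : List.Forall₂ Same D E) (h' : List.Forall₂ Same D' E') :
    List.Forall₂ Same (D ++ D') (E ++ E') := by
  induction h with
  | nil => exact h'
  | cons hp _ ih => exact List.Forall₂.cons hp ih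

theorem t_CAT : S_CAT := by
  intro m w w' h
  have key := same_all (same_append (same_append (same_refl (topm m)) (same_draw w w' h))
    (same_refl (botm m))) Front.empty
  obtain ⟨h1, h2, h3⟩ := key
  show (Fits (topm m ++ draw w ++ botm m) Front.empty ∧ (run (topm m ++ draw w ++ botm m) Front.empty).n = 0) ∧
      comps (topm m ++ draw w ++ botm m) Front.empty = 1 ↔
    (Fits (topm m ++ draw w' ++ botm m) Front.empty ∧ (run (topm m ++ draw w' ++ botm m) Front.empty).n = 0) ∧
      comps (topm m ++ draw w' ++ botm m) Front.empty = 1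
  rw [h1, h2, h3]

end Pool.Agent.K6.H17.HO
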