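import Pool.Agent.K6.H17.HO.Stm

set_option autoImplicit false

namespace Pool.Agent.K6.H17.HO

open Finset

/-- the central binomial coefficients -/
theorem central' (j : ℕ) : (3 * j + 1) * Nat.centralBinom j ^ 2 ≤ 16 ^ j := by
  induction j with
  | zero => simp
  | succ j ih =>
    have h := Nat.succ_mul_centralBinom_succ j
    have h1 : (j + 1) ^ 2 * ((3 * (j + 1) + 1) * Nat.centralBinom (j + 1) ^ 2) =
        (3 * j + 4) * (2 * (2 * j + 1) * Nat.centralBinom j) ^ 2 := by
      rw [← h]; ring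
    have h2 : (2 * j + 1) ^ 2 * (3 * j + 4) ≤ 4 * (j + 1) ^ 2 * (3 * j + 1) := by nlinarith
    have h3 : (j + 1) ^ 2 * ((3 * (j + 1) + 1) * Nat.centralBinom (j + 1) ^ 2) ≤
        (j + 1) ^ 2 * 16 ^ (j + 1) := by
      rw [h1]
      calc (3 * j + 4) * (2 * (2 * j + 1) * Nat.centralBinom j) ^ 2
          = 4 * ((2 * j + 1) ^ 2 * (3 * j + 4)) * Nat.centralBinom j ^ 2 := by ring
        _ ≤ 4 * (4 * (j + 1) ^ 2 * (3 * j + 1)) * Nat.centralBinom j ^ 2 :=
            Nat.mul_le_mul_right _ (Nat.mul_le_mul_left _ h2)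
        _ = 16 * (j + 1) ^ 2 * ((3 * j + 1) * Nat.centralBinom j ^ 2) := by ring
        _ ≤ 16 * (j + 1) ^ 2 * 16 ^ j := Nat.mul_le_mul_left _ ih
        _ = (j + 1) ^ 2 * 16 ^ (j + 1) := by ring
    exact Nat.le_of_mul_le_mul_left h3 (by positivity)

theorem t_CH : S_CH := by
  intro k
  rcases Nat.even_or_odd k with ⟨j, hj⟩ | ⟨j, hj⟩
  · have e : k = 2 * j := by omega
    subst e
    have h := central' j
    rw [Nat.centralBinom] at h
    have e1 : 2 * j / 2 = j := by omega
    rw [e1]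
    have e2 : (4 : ℕ) ^ (2 * j) = 16 ^ j := by rw [pow_mul]; norm_num
    rw [e2]
    nlinarith [Nat.zero_le (j * (2 * j).choose j ^ 2)]
  · subst hj
    have h := central' (j + 1)
    have e1 : (2 * j + 1) / 2 = j := by omega
    rw [e1]
    have e2 : Nat.centralBinom (j + 1) = 2 * (2 * j + 1).choose j := by
      rw [Nat.centralBinom, (by ring : 2 * (j + 1) = (2 * j + 1) + 1), Nat.choose_succ_succ,
        Nat.choose_symm_half]
      ring
    rw [e2] at h
    have e3 : (16 : ℕ) ^ (j + 1) = 4 * 4 ^ (2 * j + 1) := by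
      rw [pow_succ, pow_succ, pow_mul]; norm_num; ring
    rw [e3] at h
    nlinarith [Nat.zero_le ((j + 2) * (2 * j + 1).choose j ^ 2)]

theorem sum_pow_nact {β : Type} [Fintype β] [DecidableEq β] (a b : β) (hab : a ≠ b) (N : ℕ)
    (t : ℝ) : ∑ B : Fin N → β, t ^ nact a b B = ((Fintype.card β : ℝ) - 2 + 2 * t) ^ N := by
  have h1 : ∑ x : β, (if x = a ∨ x = b then t else 1) = (Fintype.card β : ℝ) - 2 + 2 * t := by
    have h2 : ∀ x : β, (if x = a ∨ x = b then t else (1 : ℝ)) =
        1 + ((if x = a then t - 1 else 0) + if x = b then t - 1 else 0) := by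
      intro x
      by_cases h3 : x = a
      · subst h3
        simp [hab]
      · by_cases h4 : x = b
        · subst h4
          simp [h3]
        · simp [h3, h4]
    rw [Finset.sum_congr rfl fun x _ => h2 x, Finset.sum_add_distrib, Finset.sum_add_distrib,
      Finset.sum_ite_eq', Finset.sum_ite_eq']
    simp only [Finset.mem_univ, if_true, Finset.sum_const, Finset.card_univ, nsmul_eq_mul, mul_one]
    ring
  rw [← h1, Fintype.sum_pow]
  refine Finset.sum_congr rfl fun B _ => ?_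
  rw [Finset.prod_ite, Finset.prod_const, Finset.prod_const_one, mul_one]
  rfl

theorem t_BIN : S_BIN := by
  intro β _ _ a b hab N
  have hM : (2 : ℝ) ≤ Fintype.card β := by
    have : 1 < Fintype.card β := Fintype.one_lt_card_iff.2 ⟨a, b, hab⟩
    exact_mod_cast this
  set M : ℝ := (Fintype.card β : ℝ)
  have h1 : ∑ B : Fin N → β, (1 : ℝ) / (nact a b B + 1) =
      ∫ t in (0 : ℝ)..1, (M - 2 + 2 * t) ^ N := by
    have h2 : ∀ t : ℝ, (M - 2 + 2 * t) ^ N = ∑ B : Fin N → β, t ^ nact a b B := fun t =>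
      (sum_pow_nact a b hab N t).symm
    simp only [h2]
    rw [intervalIntegral.integral_finsetSum fun B _ =>
      (continuous_pow _).intervalIntegrable _ _]
    refine Finset.sum_congr rfl fun B _ => ?_
    rw [integral_pow]
    simp
  have h3 : ∫ t in (0 : ℝ)..1, (M - 2 + 2 * t) ^ N = (M ^ (N + 1) - (M - 2) ^ (N + 1)) /
      (2 * (N + 1)) := by
    have h4 := intervalIntegral.integral_comp_add_mul (fun x : ℝ => x ^ N) (a := 0) (b := 1)
      (two_ne_zero : (2 : ℝ) ≠ 0) (M - 2)
    rw [h4, integral_pow]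
    have e1 : M - 2 + 2 * 1 = M := by ring
    have e2 : M - 2 + 2 * 0 = M - 2 := by ring
    rw [e1, e2, smul_eq_mul]
    field_simp
  rw [h1, h3]
  have h5 : 0 ≤ (M - 2) ^ (N + 1) := pow_nonneg (by linarith) _
  have h6 : (0 : ℝ) < 2 * (N + 1) := by positivity
  exact div_le_div_of_nonneg_right (by linarith) h6.le

end Pool.Agent.K6.H17.HO
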