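import Pool.Agent.K6.H17.HO.Stm2

/-! # The value of the state model of a closed braid at `s = s' = 1` -/

set_option autoImplicit false

namespace Pool.Agent.K6.H17.HO

open Finset
open Pool.Agent.H835R2.Knot (Word Piece)
open Pool.Agent.H838R2.SL (opD toO)
open Pool.Agent.H838R2.Jones (Bl Dl Xl cP cN opP opW nxt dirW opW_nil opW_cons opW_append Bl_apply
  Dl_apply Xl_apply)
open Pool.Agent.Helper454.Wh (insD delD swpD OPiece)
open Pool.Agent.Y466.FT (Braid draw piece)

theorem ins_del_left (i : ℕ) (σ : ℕ → Bool) (h : σ (i + 1) = !σ i) :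
    insD i (σ i) (delD i σ) = σ := by
  funext q
  simp only [insD, delD]
  split_ifs with h1 h2 h3 h4
  · rfl
  · subst h2; rfl
  · subst h3; exact h.symm
  · exfalso; omega
  · congr 1; omega

theorem ins_del_right (i : ℕ) (σ : ℕ → Bool) (h : σ (i + 1) = !σ i) :
    insD i (!σ i) (delD i σ) = swpD i σ := by
  funext q
  simp only [insD, delD, swpD]
  split_ifs <;> first
    | rfl
    | (exfalso; omega)
    | (exact h.symm)
    | (exact Bool.not_not _)
    | (congr 1; omega)

theorem swp_same (i : ℕ) (σ : ℕ → Bool) (h : σ (i + 1) = σ i) : swpD i σ = σ := by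
  funext q
  simp only [swpD]
  split_ifs with h1 h2
  · subst h1; exact h
  · subst h2; exact h.symm
  · rfl

theorem DB_one (i : ℕ) (f : Pool.Agent.H838R2.Jones.F ℚ) (σ : ℕ → Bool) :
    Dl (1 : ℚ) i (Bl (1 : ℚ) i f) σ = f (swpD i σ) - f σ := by
  rw [Dl_apply]
  by_cases h : σ (i + 1) = !σ i
  · rw [if_pos h, Bl_apply]
    have h1 := ins_del_left i σ h
    have h2 := ins_del_right i σ h
    cases hs : σ i
    · rw [hs] at h1 h2
      simp only [Bool.not_false] at h2
      rw [h1, h2]
      simp
      ring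
    · rw [hs] at h1 h2
      simp only [Bool.not_true] at h2
      rw [h1, h2]
      simp
      ring
  · rw [if_neg h]
    have h' : σ (i + 1) = σ i := by
      cases h1 : σ (i + 1) <;> cases h2 : σ i <;> simp_all
    rw [swp_same i σ h']
    ring

theorem X_one (i : ℕ) (f : Pool.Agent.H838R2.Jones.F ℚ) (σ : ℕ → Bool) :
    Xl (1 : ℚ) 1 (-1, -1) i f σ = - f (swpD i σ) := by
  rw [Xl_apply]
  simp only [Pi.add_apply, Pi.smul_apply, DB_one, smul_eq_mul]
  ring

theorem op_piece (l : Bool × ℕ) (d : ℕ → Bool) (f : Pool.Agent.H838R2.Jones.F ℚ) (σ : ℕ → Bool) :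
    opP (1 : ℚ) 1 (toO (piece l)) d f σ = - f (swpD l.2 σ) := by
  unfold piece
  cases h : l.1
  · have e : cN (1 : ℚ) 1 (d l.2 == d (l.2 + 1)) = (-1, -1) := by
      unfold cN; split_ifs <;> norm_num
    simp only [Bool.false_eq_true, if_false, toO, opP, e]
    exact X_one _ _ _
  · have e : cP (1 : ℚ) 1 (d l.2 == d (l.2 + 1)) = (-1, -1) := by
      unfold cP; split_ifs <;> norm_num
    simp only [if_true, toO, opP, e]
    exact X_one _ _ _

/-- the action of a braid word on the spins -/
def actW : Braid → (ℕ → Bool) → (ℕ → Bool)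
  | [], σ => σ
  | l :: w, σ => actW w (swpD l.2 σ)

theorem op_draw (w : Braid) (d : ℕ → Bool) (f : Pool.Agent.H838R2.Jones.F ℚ) (σ : ℕ → Bool) :
    opW (1 : ℚ) 1 ((draw w).map toO) d f σ = (-1) ^ w.length * f (actW w σ) := by
  induction w generalizing d σ with
  | nil => simp [draw, opW_nil, actW]
  | cons l w ih =>
    have e : (draw (l :: w)).map toO = toO (piece l) :: (draw w).map toO := rfl
    rw [e, opW_cons, op_piece, ih, actW, List.length_cons, pow_succ]
    ring

theorem actW_ge (m : ℕ) (w : Braid) (hw : ∀ l ∈ w, l.2 + 1 < m) (σ : ℕ → Bool) (k : ℕ)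
    (hk : m ≤ k) : actW w σ k = σ k := by
  induction w generalizing σ with
  | nil => rfl
  | cons l w ih =>
    rw [actW, ih (fun l' h => hw l' (List.mem_cons_of_mem _ h))]
    have := hw l (List.mem_cons_self)
    simp only [swpD]
    rw [if_neg (by omega), if_neg (by omega)]

theorem actW_lt (m : ℕ) (w : Braid) (hw : ∀ l ∈ w, l.2 + 1 < m) (σ : ℕ → Bool) (k : Fin m) :
    actW w σ k = σ (pf m w k) := by
  induction w generalizing σ with
  | nil => simp [actW, pf]
  | cons l w ih =>
    have hl := hw l (List.mem_cons_self)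
    rw [actW, ih (fun l' h => hw l' (List.mem_cons_of_mem _ h))]
    have e : pf m (l :: w) = Equiv.swap (⟨l.2, by omega⟩ : Fin m) ⟨l.2 + 1, hl⟩ * pf m w := by
      unfold pf
      rw [List.map_cons, List.prod_cons, dif_pos hl]
    rw [e, Equiv.Perm.mul_apply]
    generalize pf m w k = j
    rw [Equiv.swap_apply_def]
    simp only [swpD]
    by_cases h1 : (j : ℕ) = l.2
    · have h2 : j = (⟨l.2, by omega⟩ : Fin m) := Fin.ext h1
      rw [if_pos h1, if_pos h2]
    · have h2 : j ≠ (⟨l.2, by omega⟩ : Fin m) := fun h => h1 (congrArg Fin.val h)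
      rw [if_neg h1, if_neg h2]
      by_cases h3 : (j : ℕ) = l.2 + 1
      · have h4 : j = (⟨l.2 + 1, hl⟩ : Fin m) := Fin.ext h3
        rw [if_pos h3, if_pos h4]
      · have h4 : j ≠ (⟨l.2 + 1, hl⟩ : Fin m) := fun h => h3 (congrArg Fin.val h)
        rw [if_neg h3, if_neg h4]

/-- the spins below the maxima -/
def cfg (m : ℕ) (b : Fin m → Bool) (σ : ℕ → Bool) : ℕ → Bool := fun k =>
  if h : k < m then b ⟨k, h⟩ else if h2 : k < 2 * m then !b ⟨2 * m - 1 - k, by omega⟩ else σ (k - 2 * m)

theorem cfg_snoc (m : ℕ) (b : Fin m → Bool) (c : Bool) (σ : ℕ → Bool) :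
    cfg (m + 1) (Fin.snoc (α := fun _ => Bool) b c) σ = insD m c (cfg m b σ) := by
  funext k
  simp only [cfg, insD]
  by_cases h1 : k < m
  · rw [dif_pos (show k < m + 1 by omega), if_pos h1, dif_pos h1]
    have : (⟨k, by omega⟩ : Fin (m + 1)) = Fin.castSucc ⟨k, h1⟩ := rfl
    rw [this, Fin.snoc_castSucc]
  · rw [if_neg h1]
    by_cases h2 : k = m
    · subst h2
      rw [dif_pos (show k < k + 1 by omega), if_pos rfl]
      have : (⟨k, by omega⟩ : Fin (k + 1)) = Fin.last k := rfl
      rw [this, Fin.snoc_last]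
    · rw [if_neg h2, dif_neg (show ¬ k < m + 1 by omega)]
      by_cases h3 : k = m + 1
      · subst h3
        rw [if_pos rfl, dif_pos (show m + 1 < 2 * (m + 1) by omega)]
        have : (⟨2 * (m + 1) - 1 - (m + 1), by omega⟩ : Fin (m + 1)) = Fin.last m := by
          apply Fin.ext; simp; omega
        rw [this, Fin.snoc_last]
      · rw [if_neg h3, dif_neg (show ¬ k - 2 < m by omega)]
        by_cases h4 : k < 2 * (m + 1)
        · rw [dif_pos h4, dif_pos (show k - 2 < 2 * m by omega)]
          have : (⟨2 * (m + 1) - 1 - k, by omega⟩ : Fin (m + 1)) =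
              Fin.castSucc ⟨2 * m - 1 - (k - 2), by omega⟩ := by
            apply Fin.ext; simp; omega
          rw [this, Fin.snoc_castSucc]
        · rw [dif_neg h4, dif_neg (show ¬ k - 2 < 2 * m by omega)]
          congr 1
          omega

/-- the sign of a maximum -/
def sg (b : Bool) : ℚ := if b then -1 else 1

theorem op_top (m : ℕ) (d : ℕ → Bool) (f : Pool.Agent.H838R2.Jones.F ℚ) (σ : ℕ → Bool) :
    opW (1 : ℚ) 1 ((topm m).map toO) d f σ =
      ∑ b : Fin m → Bool, (∏ i, sg (b i)) * f (cfg m b σ) := by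
  induction m generalizing f with
  | zero =>
    have e : ∀ b : Fin 0 → Bool, cfg 0 b σ = σ := by
      intro b
      funext k; simp [cfg]
    simp [topm, opW_nil, e]
  | succ m ih =>
    have e : (topm (m + 1)).map toO = (topm m).map toO ++ [OPiece.birth m true] := by
      unfold topm
      rw [List.range_succ]
      simp [toO]
    rw [e, opW_append, ih]
    have e2 : ∀ (d' : ℕ → Bool) (τ : ℕ → Bool), opW (1 : ℚ) 1 [OPiece.birth m true] d' f τ =
        ∑ c : Bool, sg c * f (insD m c τ) := by
      intro d' τ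
      rw [opW_cons, opW_nil]
      simp only [opP, Bl_apply, Fintype.sum_bool, sg]
      simp
    simp only [e2, Finset.mul_sum]
    have e4 : ∑ b : Fin (m + 1) → Bool, (∏ i, sg (b i)) * f (cfg (m + 1) b σ) =
        ∑ x : Bool × (Fin m → Bool),
          (∏ i, sg ((Fin.snoc (α := fun _ => Bool) x.2 x.1 : Fin (m + 1) → Bool) i)) *
            f (cfg (m + 1) (Fin.snoc (α := fun _ => Bool) x.2 x.1) σ) :=
      (Fintype.sum_equiv (Fin.snocEquiv (fun _ : Fin (m + 1) => Bool)) _ _ (fun x => rfl)).symm
    rw [e4, Fintype.sum_prod_type, Finset.sum_comm]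
    refine Finset.sum_congr rfl fun b _ => Finset.sum_congr rfl fun c _ => ?_
    rw [cfg_snoc, Fin.prod_univ_castSucc]
    simp only [Fin.snoc_castSucc, Fin.snoc_last]
    ring

theorem op_bot (m : ℕ) (d : ℕ → Bool) (τ : ℕ → Bool) :
    opW (1 : ℚ) 1 ((botm m).map toO) d 1 τ =
      ∏ i ∈ Finset.range m, (if τ (2 * m - 1 - i) = !τ i then - sg (τ i) else 0) := by
  induction m generalizing d τ with
  | zero => simp [botm, opW_nil]
  | succ m ih =>
    have e : (botm (m + 1)).map toO = OPiece.death m :: (botm m).map toO := rfl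
    rw [e, opW_cons]
    simp only [opP]
    rw [Dl_apply, ih, Finset.prod_range_succ]
    have e1 : ∏ i ∈ Finset.range m, (if (delD m τ) (2 * m - 1 - i) = !(delD m τ) i then
          - sg ((delD m τ) i) else 0) =
        ∏ i ∈ Finset.range m, (if τ (2 * (m + 1) - 1 - i) = !τ i then - sg (τ i) else 0) := by
      refine Finset.prod_congr rfl fun i hi => ?_
      have hi' := Finset.mem_range.1 hi
      have e2 : delD m τ (2 * m - 1 - i) = τ (2 * (m + 1) - 1 - i) := by
        simp only [delD]
        rw [if_neg (by omega)]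
        congr 1
        omega
      have e3 : delD m τ i = τ i := by
        simp only [delD]
        rw [if_pos hi']
      rw [e2, e3]
    rw [e1]
    have e4 : 2 * (m + 1) - 1 - m = m + 1 := by omega
    rw [e4]
    by_cases h : τ (m + 1) = !τ m
    · rw [if_pos h, if_pos h]
      cases h5 : τ m <;> simp [sg, mul_comm]
    · rw [if_neg h, if_neg h, mul_zero]

theorem t_CHI : S_CHI := by
  intro m w hw
  unfold opD cl
  rw [List.map_append, List.map_append, opW_append, opW_append, op_top]
  have key : ∀ (b : Fin m → Bool) (d : ℕ → Bool) (d' : ℕ → Bool),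
      (∏ i, sg (b i)) * opW (1 : ℚ) 1 ((draw w).map toO) d
        (opW (1 : ℚ) 1 ((botm m).map toO) d' 1) (cfg m b (fun _ => false)) =
      if b ∈ Fx (pf m w) then (-1) ^ (w.length + m) else 0 := by
    intro b d d'
    rw [op_draw, op_bot, Finset.prod_range]
    have e1 : ∀ i : Fin m, (if actW w (cfg m b fun _ => false) (2 * m - 1 - (i : ℕ)) =
        !actW w (cfg m b fun _ => false) (i : ℕ) then
          - sg (actW w (cfg m b fun _ => false) (i : ℕ)) else 0) =
        if b (pf m w i) = b i then - sg (b i) else 0 := by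
      intro i
      have hi := i.2
      rw [actW_lt m w hw, actW_ge m w hw _ _ (by omega)]
      have e2 : cfg m b (fun _ => false) (2 * m - 1 - (i : ℕ)) = !b i := by
        simp only [cfg]
        rw [dif_neg (by omega), dif_pos (by omega)]
        congr 2
        apply Fin.ext
        simp
        omega
      have e3 : ∀ j : Fin m, cfg m b (fun _ => false) (j : ℕ) = b j := by
        intro j
        simp only [cfg]
        rw [dif_pos j.2]
      rw [e2, e3]
      cases h1 : b i <;> cases h2 : b (pf m w i) <;> simp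
    simp only [e1]
    by_cases hb : b ∈ Fx (pf m w)
    · rw [if_pos hb]
      have hb' : ∀ i, b (pf m w i) = b i := by
        have := (Finset.mem_filter.1 hb).2
        exact this
      simp only [hb', if_true]
      rw [pow_add]
      have e5 : (∏ i : Fin m, sg (b i)) * ∏ i : Fin m, - sg (b i) = (-1) ^ m := by
        rw [← Finset.prod_mul_distrib]
        have : ∀ i : Fin m, sg (b i) * - sg (b i) = -1 := by
          intro i
          cases b i <;> simp [sg]
        simp [this]
      linear_combination ((-1) ^ w.length) * e5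
    · rw [if_neg hb]
      have : ∃ i, b (pf m w i) ≠ b i := by
        by_contra hcon
        push Not at hcon
        exact hb (Finset.mem_filter.2 ⟨Finset.mem_univ _, hcon⟩)
      obtain ⟨i, hi⟩ := this
      have hz : ∏ i : Fin m, (if b (pf m w i) = b i then - sg (b i) else 0) = 0 :=
        Finset.prod_eq_zero (Finset.mem_univ i) (if_neg hi)
      rw [hz, mul_zero, mul_zero]
  rw [Finset.sum_congr rfl fun b _ => key b _ _]
  rw [Finset.sum_ite_mem, Finset.univ_inter, Finset.sum_const, nsmul_eq_mul, mul_comm]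

end Pool.Agent.K6.H17.HO
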