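import Pool.Agent.K6.H17.HO.Stm

/-!
# Piece COL (helper84): fixed two-colourings of a cycle multiplied by a three-cycle
-/

set_option autoImplicit false

namespace Pool.Agent.K6.H17.HO

open Finset

namespace COL

variable {m : ℕ}

theorem mem_Fx {π : Equiv.Perm (Fin m)} {b : Fin m → Bool} : b ∈ Fx π ↔ ∀ i, b (π i) = b i := by
  simp [Fx]

theorem conj (x y : Equiv.Perm (Fin m)) : #(Fx (x * y)) = #(Fx (y * x)) := by
  refine Finset.card_bij (fun b _ => b ∘ x) ?_ ?_ ?_
  · intro b hb
    rw [mem_Fx] at *
    intro i
    exact hb (x i)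
  · intro b _ b' _ h
    funext i
    have := congrFun h (x.symm i)
    simpa using this
  · intro b hb
    refine ⟨b ∘ x.symm, ?_, ?_⟩
    · rw [mem_Fx] at *
      intro i
      have h := hb (x.symm i)
      simp only [Equiv.Perm.mul_apply, Equiv.apply_symm_apply] at h
      simp only [Function.comp_apply, Equiv.Perm.mul_apply, Equiv.symm_apply_apply]
      exact h
    · funext i
      simp

/-- the colourings which are fixed by one cycle are constant -/
theorem const_of {ρ : Equiv.Perm (Fin m)} (h : #(Fx ρ) = 2) (a : Fin m) {b : Fin m → Bool}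
    (hb : b ∈ Fx ρ) (i : Fin m) : b i = b a := by
  classical
  have h1 : ({(fun _ => true), (fun _ => false)} : Finset (Fin m → Bool)) ⊆ Fx ρ := by
    intro c hc
    rw [mem_insert, mem_singleton] at hc
    rw [mem_Fx]
    rcases hc with rfl | rfl <;> intro _ <;> rfl
  have h2 : ({(fun _ => true), (fun _ => false)} : Finset (Fin m → Bool)).card = 2 := by
    rw [card_insert_of_notMem, card_singleton]
    rw [mem_singleton]
    intro h
    have := congrFun h a
    simp at this
  have h3 := Finset.eq_of_subset_of_card_le h1 (by rw [h, h2])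
  rw [← h3, mem_insert, mem_singleton] at hb
  rcases hb with rfl | rfl <;> rfl

theorem exists_arc {ρ : Equiv.Perm (Fin m)} (h : #(Fx ρ) = 2) {a c : Fin m} (hac : a ≠ c) :
    ∃ b ∈ Fx (ρ * Equiv.swap a c), b a = false ∧ b c = true := by
  classical
  have hex : ∃ p : ℕ, 0 < p ∧ (ρ ^ p) a = c := by
    have h1 : (fun i => decide (ρ.SameCycle a i)) ∈ Fx ρ := by
      rw [mem_Fx]
      intro i
      simp
    have h2 := const_of h a h1 c
    simp only [Equiv.Perm.SameCycle.refl, decide_true, decide_eq_true_eq] at h2
    obtain ⟨p, hp, -, h3⟩ := h2.exists_pow_eq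
    exact ⟨p, hp, h3⟩
  obtain ⟨hp0, hpc⟩ := Nat.find_spec hex
  set p := Nat.find hex with hp
  have hmin : ∀ q, 0 < q → q < p → (ρ ^ q) a ≠ c := fun q h1 h2 h3 =>
    Nat.find_min hex h2 ⟨h1, h3⟩
  -- no return before `p`
  have hne : ∀ j, 0 < j → j ≤ p → (ρ ^ j) a ≠ a := by
    intro j h1 h2 h3
    rcases Nat.lt_or_ge j p with h4 | h4
    · refine hmin (p - j) (by omega) (by omega) ?_
      have : (ρ ^ p) a = (ρ ^ (p - j)) ((ρ ^ j) a) := by
        rw [← Equiv.Perm.mul_apply, ← pow_add]
        congr 2
        omega
      rw [h3] at this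
      rw [← this]
      exact hpc
    · have : j = p := le_antisymm h2 h4
      rw [this, hpc] at h3
      exact hac h3.symm
  refine ⟨fun i => decide (∃ j, 0 < j ∧ j ≤ p ∧ (ρ ^ j) a = i), ?_, ?_, ?_⟩
  · rw [mem_Fx]
    intro i
    show decide _ = decide _
    rw [decide_eq_decide, Equiv.Perm.mul_apply]
    by_cases hia : i = a
    · subst hia
      rw [Equiv.swap_apply_left]
      constructor
      · rintro ⟨j, h1, h2, h3⟩
        exfalso
        rw [← hpc, ← Equiv.Perm.mul_apply, ← pow_succ'] at h3
        have : (ρ ^ (p + 1)) i = (ρ ^ j) ((ρ ^ (p + 1 - j)) i) := by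
          rw [← Equiv.Perm.mul_apply, ← pow_add]
          congr 2
          omega
        rw [this] at h3
        exact hne (p + 1 - j) (by omega) (by omega) ((ρ ^ j).injective h3).symm
      · rintro ⟨j, h1, h2, h3⟩
        exact absurd h3 (hne j h1 h2)
    · by_cases hic : i = c
      · subst hic
        rw [Equiv.swap_apply_right]
        constructor
        · intro _
          exact ⟨p, hp0, le_refl _, hpc⟩
        · intro _
          exact ⟨1, one_pos, hp0, by simp⟩
      · rw [Equiv.swap_apply_of_ne_of_ne hia hic]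
        constructor
        · rintro ⟨j, h1, h2, h3⟩
          obtain ⟨j', rfl⟩ : ∃ j', j = j' + 1 := ⟨j - 1, by omega⟩
          rw [pow_succ', Equiv.Perm.mul_apply] at h3
          have h4 := ρ.injective h3
          refine ⟨j', ?_, by omega, h4⟩
          rcases Nat.eq_zero_or_pos j' with h5 | h5
          · subst h5
            exact absurd h4.symm hia
          · exact h5
        · rintro ⟨j, h1, h2, h3⟩
          refine ⟨j + 1, by omega, ?_, ?_⟩
          · rcases Nat.lt_or_ge j p with h4 | h4
            · exact h4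
            · have : j = p := le_antisymm h2 h4
              rw [this, hpc] at h3
              exact absurd h3.symm hic
          · rw [pow_succ', Equiv.Perm.mul_apply, h3]
  · rw [decide_eq_false_iff_not]
    rintro ⟨j, h1, h2, h3⟩
    exact hne j h1 h2 h3
  · rw [decide_eq_true_eq]
    exact ⟨p, hp0, le_refl _, hpc⟩

theorem card_swap {ρ : Equiv.Perm (Fin m)} (h : #(Fx ρ) = 2) {a c : Fin m} (hac : a ≠ c) :
    #(Fx (ρ * Equiv.swap a c)) = 4 := by
  classical
  have hinj : Set.InjOn (fun b : Fin m → Bool => (b a, b c)) (Fx (ρ * Equiv.swap a c)) := by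
    intro b hb b' hb' hbb
    rw [mem_coe, mem_Fx] at hb hb'
    simp only [Prod.mk.injEq] at hbb
    have h1 : (fun i => xor (b i) (b' i)) ∈ Fx ρ := by
      rw [mem_Fx]
      have key : ∀ i, xor (b (ρ (Equiv.swap a c i))) (b' (ρ (Equiv.swap a c i))) =
          xor (b i) (b' i) := by
        intro i
        have e1 := hb i
        have e2 := hb' i
        rw [Equiv.Perm.mul_apply] at e1 e2
        rw [e1, e2]
      intro i
      show xor (b (ρ i)) (b' (ρ i)) = xor (b i) (b' i)
      by_cases hia : i = a
      · subst hia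
        have := key c
        rw [Equiv.swap_apply_right] at this
        rw [this, hbb.1, hbb.2]
        simp
      · by_cases hic : i = c
        · subst hic
          have := key a
          rw [Equiv.swap_apply_left] at this
          rw [this, hbb.1, hbb.2]
          simp
        · have := key i
          rwa [Equiv.swap_apply_of_ne_of_ne hia hic] at this
    funext i
    have h2 : xor (b i) (b' i) = xor (b a) (b' a) := const_of h a h1 i
    rw [hbb.1] at h2
    simpa using h2
  have hsurj : (Fx (ρ * Equiv.swap a c)).image (fun b : Fin m → Bool => (b a, b c)) = univ := by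
    rw [eq_univ_iff_forall]
    obtain ⟨b, hb, hba, hbc⟩ := exists_arc h hac
    rintro ⟨x, y⟩
    rw [mem_image]
    by_cases hxy : x = y
    · subst hxy
      exact ⟨fun _ => x, by rw [mem_Fx]; intro _; rfl, rfl⟩
    · cases x
      · cases y
        · exact absurd rfl hxy
        · exact ⟨b, hb, by rw [hba, hbc]⟩
      · cases y
        · refine ⟨fun i => !b i, ?_, by simp [hba, hbc]⟩
          rw [mem_Fx] at hb ⊢
          intro i
          rw [hb i]
        · exact absurd rfl hxy
  rw [← card_image_of_injOn hinj, hsurj]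
  rfl

theorem even_Fx (π : Equiv.Perm (Fin m)) (a : Fin m) : Even #(Fx π) := by
  classical
  have h1 : #((Fx π).filter fun b => b a = true) = #((Fx π).filter fun b => ¬ b a = true) := by
    refine Finset.card_bij (fun b _ => fun i => !b i) ?_ ?_ ?_
    · intro b hb
      rw [mem_filter, mem_Fx] at *
      refine ⟨fun i => by rw [hb.1 i], by simp [hb.2]⟩
    · intro b _ b' _ h
      funext i
      have := congrFun h i
      simpa using this
    · intro b hb
      rw [mem_filter, mem_Fx] at hb
      refine ⟨fun i => !b i, ?_, by funext i; simp⟩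
      rw [mem_filter, mem_Fx]
      refine ⟨fun i => by rw [hb.1 i], by simpa using hb.2⟩
  have h2 := Finset.card_filter_add_card_filter_not (s := Fx π) (fun b => b a = true)
  exact ⟨_, by rw [← h2, ← h1]⟩

theorem card_eq_sum (ρ t : Equiv.Perm (Fin m)) :
    #(Fx (ρ * t)) = ∑ b : Fin m → Bool, if b ∘ ρ = b ∘ ⇑(t⁻¹) then 1 else 0 := by
  classical
  rw [← Finset.card_filter]
  congr 1
  ext b
  rw [mem_Fx, mem_filter]
  constructor
  · intro h
    refine ⟨mem_univ _, ?_⟩
    funext i
    have := h (t⁻¹ i)
    simpa using this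
  · rintro ⟨-, h⟩ i
    have := congrFun h (t i)
    simpa using this

end COL

open COL in
theorem t_COL : S_COL := by
  classical
  intro m u v huv p q r hpq hqr hpr heq
  have hρ : #(Fx (v * u)) = 2 := by rw [conj, huv]
  rw [conj (u * _) v, conj (u * _) v, ← mul_assoc, ← mul_assoc v u] at heq
  set ρ := v * u with hρdef
  have hsum : #(Fx (ρ * 1)) + #(Fx (ρ * (Equiv.swap p q * Equiv.swap q r))) +
      #(Fx (ρ * (Equiv.swap q r * Equiv.swap p q))) =
      #(Fx (ρ * Equiv.swap p q)) + #(Fx (ρ * Equiv.swap q r)) + #(Fx (ρ * Equiv.swap p r)) := by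
    rw [card_eq_sum, card_eq_sum, card_eq_sum, card_eq_sum, card_eq_sum, card_eq_sum,
      ← sum_add_distrib, ← sum_add_distrib, ← sum_add_distrib, ← sum_add_distrib]
    refine sum_congr rfl fun b _ => ?_
    rw [mul_inv_rev, mul_inv_rev, Equiv.swap_inv, Equiv.swap_inv, Equiv.swap_inv, inv_one]
    have hcases : b p = b q ∨ b q = b r ∨ b p = b r := by
      cases b p <;> cases b q <;> cases b r <;> simp
    have e0 : b ∘ ⇑(1 : Equiv.Perm (Fin m)) = b := rfl
    rw [e0]
    rcases hcases with h | h | h
    · have e1 : b ∘ ⇑(Equiv.swap p q) = b := by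
        funext i
        simp only [Function.comp_apply, Equiv.swap_apply_def]
        split_ifs <;> simp_all
      have e2 : b ∘ ⇑(Equiv.swap q r * Equiv.swap p q) = b ∘ ⇑(Equiv.swap p r) := by
        funext i
        simp only [Function.comp_apply, Equiv.Perm.mul_apply, Equiv.swap_apply_def]
        split_ifs <;> simp_all
      have e3 : b ∘ ⇑(Equiv.swap p q * Equiv.swap q r) = b ∘ ⇑(Equiv.swap q r) := by
        funext i
        simp only [Function.comp_apply, Equiv.Perm.mul_apply, Equiv.swap_apply_def]
        split_ifs <;> simp_all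
      rw [e1, e2, e3]
      ring
    · have e1 : b ∘ ⇑(Equiv.swap q r) = b := by
        funext i
        simp only [Function.comp_apply, Equiv.swap_apply_def]
        split_ifs <;> simp_all
      have e2 : b ∘ ⇑(Equiv.swap q r * Equiv.swap p q) = b ∘ ⇑(Equiv.swap p q) := by
        funext i
        simp only [Function.comp_apply, Equiv.Perm.mul_apply, Equiv.swap_apply_def]
        split_ifs <;> simp_all
      have e3 : b ∘ ⇑(Equiv.swap p q * Equiv.swap q r) = b ∘ ⇑(Equiv.swap p r) := by
        funext i
        simp only [Function.comp_apply, Equiv.Perm.mul_apply, Equiv.swap_apply_def]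
        split_ifs <;> simp_all
      rw [e1, e2, e3]
      ring
    · have e1 : b ∘ ⇑(Equiv.swap p r) = b := by
        funext i
        simp only [Function.comp_apply, Equiv.swap_apply_def]
        split_ifs <;> simp_all
      have e2 : b ∘ ⇑(Equiv.swap q r * Equiv.swap p q) = b ∘ ⇑(Equiv.swap q r) := by
        funext i
        simp only [Function.comp_apply, Equiv.Perm.mul_apply, Equiv.swap_apply_def]
        split_ifs <;> simp_all
      have e3 : b ∘ ⇑(Equiv.swap p q * Equiv.swap q r) = b ∘ ⇑(Equiv.swap p q) := by
        funext i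
        simp only [Function.comp_apply, Equiv.Perm.mul_apply, Equiv.swap_apply_def]
        split_ifs <;> simp_all
      rw [e1, e2, e3]
      ring
  rw [mul_one, hρ, card_swap hρ hpq, card_swap hρ hqr, card_swap hρ hpr, heq] at hsum
  obtain ⟨k, hk⟩ := even_Fx (ρ * (Equiv.swap q r * Equiv.swap p q)) p
  omega

end Pool.Agent.K6.H17.HO
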