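import Pool.Agent.K6.H17.HO.Stm

/-!
# Piece GAD (helper84): iterated commutators of the generators of the Temperley-Lieb algebra
-/

set_option autoImplicit false

namespace Pool.Agent.K6.H17.HO

open PowerSeries

namespace GAD

variable {A : Type} [Ring A] [Algebra (PowerSeries ℚ) A]

/-- congruence modulo `X` -/
def Cg (a b : A) : Prop := ∃ D : A, a = b + (X : PowerSeries ℚ) • D

theorem Cg.refl (a : A) : Cg a a := ⟨0, by simp⟩

theorem Cg.trans {a b c : A} (h : Cg a b) (h' : Cg b c) : Cg a c := by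
  obtain ⟨D, rfl⟩ := h
  obtain ⟨D', rfl⟩ := h'
  exact ⟨D' + D, by rw [smul_add, add_assoc]⟩

theorem Cg.add {a b a' b' : A} (h : Cg a a') (h' : Cg b b') : Cg (a + b) (a' + b') := by
  obtain ⟨D, rfl⟩ := h
  obtain ⟨D', rfl⟩ := h'
  exact ⟨D + D', by rw [smul_add]; abel⟩

theorem Cg.sub {a b a' b' : A} (h : Cg a a') (h' : Cg b b') : Cg (a - b) (a' - b') := by
  obtain ⟨D, rfl⟩ := h
  obtain ⟨D', rfl⟩ := h'
  exact ⟨D - D', by rw [smul_sub]; abel⟩

theorem Cg.mul {a b a' b' : A} (h : Cg a a') (h' : Cg b b') : Cg (a * b) (a' * b') := by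
  obtain ⟨D, rfl⟩ := h
  obtain ⟨D', rfl⟩ := h'
  refine ⟨a' * D' + D * b' + (X : PowerSeries ℚ) • (D * D'), ?_⟩
  simp only [add_mul, mul_add, smul_mul_assoc, mul_smul_comm, smul_add]
  abel

theorem Cg.scal {r r' : PowerSeries ℚ} (h : ∃ t, r = r' + X * t) (a : A) : Cg (r • a) (r' • a) := by
  obtain ⟨t, rfl⟩ := h
  exact ⟨t • a, by rw [add_smul, mul_smul]⟩

theorem Cg.smul (r : PowerSeries ℚ) {a b : A} (h : Cg a b) : Cg (r • a) (r • b) := by
  obtain ⟨D, rfl⟩ := h
  exact ⟨r • D, by rw [smul_add, smul_comm]⟩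

theorem inv_cg {P P' N : A} (h : P' * P = 1) (hP : P = 1 + (X : PowerSeries ℚ) • N) : Cg P' 1 := by
  refine ⟨-(P' * N), ?_⟩
  have : P' + (X : PowerSeries ℚ) • (P' * N) = 1 := by
    rw [← h, hP, mul_add, mul_one, mul_smul_comm]
  rw [← this, smul_neg]
  abel

theorem comm_step {P P' g g' N G : A} (k : ℕ) (h1 : P * P' = 1) (h3 : g * g' = 1)
    (hP : P = 1 + (X : PowerSeries ℚ) • N) (hg : g = 1 + (X ^ k : PowerSeries ℚ) • G) :
    P * g * P' * g' = 1 + (X ^ (k + 1) : PowerSeries ℚ) • ((N * G - G * N) * P' * g') := by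
  have hc : P * g = g * P + (X ^ (k + 1) : PowerSeries ℚ) • (N * G - G * N) := by
    rw [hP, hg]
    simp only [add_mul, mul_add, smul_mul_assoc, mul_smul_comm, mul_one, one_mul, smul_sub,
      smul_smul, pow_succ, smul_add]
    rw [mul_comm (X : PowerSeries ℚ) (X ^ k)]
    abel
  rw [hc, add_mul, add_mul, mul_assoc g P P', h1, mul_one, h3, smul_mul_assoc, smul_mul_assoc]

theorem sx_mul : sx * sx' = 1 := by
  unfold sx sx'
  refine PowerSeries.mul_inv_cancel _ ?_
  simp

theorem mulU_gen {R B : Type} [CommRing R] [Ring B] [Algebra R B] {U : B} {δ : R}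
    (h : U * U = δ • U) (a b c d : R) :
    (a • (1 : B) + b • U) * (c • (1 : B) + d • U) =
      (a * c) • (1 : B) + (a * d + b * c + b * d * δ) • U := by
  simp only [add_mul, mul_add, smul_mul_assoc, mul_smul_comm, mul_one, one_mul, h, smul_smul]
  module

theorem comm_start_gen {R B : Type} [CommRing R] [Ring B] [Algebra R B] (U V : B) (a b : R) :
    (a • ((1 : B) - b • U)) * (a • ((1 : B) - b • V)) -
      (a • ((1 : B) - b • V)) * (a • ((1 : B) - b • U)) = (a ^ 2 * b ^ 2) • (U * V - V * U) := by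
  simp only [sub_mul, mul_sub, smul_mul_assoc, mul_smul_comm, mul_one, one_mul, smul_sub,
    smul_smul]
  module

theorem comm_two_gen {R B : Type} [CommRing R] [Ring B] [Algebra R B] (U V : B) (δ κ : R)
    (h00 : U * U = δ • U) (h010 : U * V * U = U) :
    (((2 : R) • ((1 : B) - U)) * (((2 : R) • ((1 : B) - U)) *
      (κ • (U * V - V * U)) - (κ • (U * V - V * U)) * ((2 : R) • ((1 : B) - U))) -
      (((2 : R) • ((1 : B) - U)) *
      (κ • (U * V - V * U)) - (κ • (U * V - V * U)) * ((2 : R) • ((1 : B) - U))) *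
      ((2 : R) • ((1 : B) - U))) = (4 * δ ^ 2 * κ) • (U * V - V * U) := by
  have a1 : U * (U * V) = δ • (U * V) := by
    rw [← mul_assoc, h00, smul_mul_assoc]
  have a2 : V * U * U = δ • (V * U) := by
    rw [mul_assoc, h00, mul_smul_comm]
  have a3 : U * (V * U) = U := by rw [← mul_assoc, h010]
  simp only [sub_mul, mul_sub, smul_mul_assoc, mul_smul_comm, mul_one, one_mul, smul_sub,
    smul_smul, a1, a2, a3, h010, h00]
  module

theorem mulU {U : A} {δ : PowerSeries ℚ} (h : U * U = δ • U) (a b c d : PowerSeries ℚ) :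
    (a • (1 : A) + b • U) * (c • (1 : A) + d • U) =
      (a * c) • (1 : A) + (a * d + b * c + b * d * δ) • U :=
  mulU_gen h a b c d

section
variable {U : Fin 2 → A}

theorem el_inv (hU : TL U) (i : Fin 2) : el U (i, true) * el U (i, false) = 1 := by
  have hs := sx_mul
  show ((-sx) • (1 : A) + (-sx ^ 2) • U i) * ((-sx') • (1 : A) + (-sx' ^ 2) • U i) = 1
  rw [mulU (hU.sq i)]
  have e1 : (-sx) * (-sx') = (1 : PowerSeries ℚ) := by linear_combination hs
  have e2 : -sx * -sx' ^ 2 + -sx ^ 2 * -sx' + -sx ^ 2 * -sx' ^ 2 * -(sx + sx') =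
      (0 : PowerSeries ℚ) := by
    linear_combination (sx' + sx - (sx + sx') * (sx * sx' + 1)) * hs
  rw [e1, e2]
  simp

theorem el_inv' (hU : TL U) (i : Fin 2) : el U (i, false) * el U (i, true) = 1 := by
  have hs := sx_mul
  show ((-sx') • (1 : A) + (-sx' ^ 2) • U i) * ((-sx) • (1 : A) + (-sx ^ 2) • U i) = 1
  rw [mulU (hU.sq i)]
  have e1 : (-sx') * (-sx) = (1 : PowerSeries ℚ) := by linear_combination hs
  have e2 : -sx' * -sx ^ 2 + -sx' ^ 2 * -sx + -sx' ^ 2 * -sx ^ 2 * -(sx + sx') =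
      (0 : PowerSeries ℚ) := by
    linear_combination (sx' + sx - (sx + sx') * (sx * sx' + 1)) * hs
  rw [e1, e2]
  simp

/-- the square of a letter -/
noncomputable def sqr (U : Fin 2 → A) (x : Fin 2 × Bool) : A := el U x * el U x

theorem sqr_inv (hU : TL U) (i : Fin 2) : sqr U (i, true) * sqr U (i, false) = 1 := by
  unfold sqr
  rw [mul_assoc, ← mul_assoc (el U (i, true)) (el U (i, false)), el_inv hU, one_mul, el_inv hU]

theorem sqr_inv' (hU : TL U) (i : Fin 2) : sqr U (i, false) * sqr U (i, true) = 1 := by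
  unfold sqr
  rw [mul_assoc, ← mul_assoc (el U (i, false)) (el U (i, true)), el_inv' hU, one_mul, el_inv' hU]

/-- the first coefficient of the square of a letter -/
noncomputable def NN (U : Fin 2 → A) (i : Fin 2) : A :=
  (2 + X : PowerSeries ℚ) • ((1 : A) - (sx ^ 3) • U i)

theorem sqr_eq (hU : TL U) (i : Fin 2) : sqr U (i, true) = 1 + (X : PowerSeries ℚ) • NN U i := by
  have hs := sx_mul
  show ((-sx) • (1 : A) + (-sx ^ 2) • U i) * ((-sx) • (1 : A) + (-sx ^ 2) • U i) = _
  rw [mulU (hU.sq i)]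
  have e1 : (-sx) * (-sx) = (1 : PowerSeries ℚ) + X * (2 + X) := by unfold sx; ring
  have e2 : -sx * -sx ^ 2 + -sx ^ 2 * -sx + -sx ^ 2 * -sx ^ 2 * -(sx + sx') =
      -((X * (2 + X)) * sx ^ 3 : PowerSeries ℚ) := by
    have e3 : (X * (2 + X) : PowerSeries ℚ) = sx ^ 2 - 1 := by unfold sx; ring
    rw [e3]
    linear_combination (-(sx ^ 3)) * hs
  rw [e1, e2]
  unfold NN
  rw [add_smul, one_smul, neg_smul, smul_sub, smul_sub, smul_smul, smul_smul, smul_smul]
  abel_nf

theorem NN_cg (i : Fin 2) : Cg (NN U i) ((2 : PowerSeries ℚ) • ((1 : A) - U i)) := by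
  unfold NN
  refine Cg.trans (Cg.scal ⟨1, by ring⟩ _) (Cg.smul _ (Cg.sub (Cg.refl _) ?_))
  have h1 : Cg ((sx ^ 3) • U i) ((1 : PowerSeries ℚ) • U i) :=
    Cg.scal ⟨3 + 3 * X + X ^ 2, by unfold sx; ring⟩ _
  rwa [one_smul] at h1

/-- the commutator of the two generators -/
def cc (U : Fin 2 → A) : A := U 0 * U 1 - U 1 * U 0

theorem comm_start : (NN U 0) * (NN U 1) - (NN U 1) * (NN U 0) =
    ((2 + X) ^ 2 * sx ^ 6 : PowerSeries ℚ) • cc U := by
  unfold NN cc
  rw [comm_start_gen]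
  congr 1
  ring

theorem comm_two (hU : TL U) (κ : PowerSeries ℚ) :
    (((2 : PowerSeries ℚ) • ((1 : A) - U 0)) * (((2 : PowerSeries ℚ) • ((1 : A) - U 0)) *
      (κ • cc U) - (κ • cc U) * ((2 : PowerSeries ℚ) • ((1 : A) - U 0))) -
      (((2 : PowerSeries ℚ) • ((1 : A) - U 0)) *
      (κ • cc U) - (κ • cc U) * ((2 : PowerSeries ℚ) • ((1 : A) - U 0))) *
      ((2 : PowerSeries ℚ) • ((1 : A) - U 0))) = (4 * (sx + sx') ^ 2 * κ) • cc U := by
  unfold cc
  rw [comm_two_gen (U 0) (U 1) (-(sx + sx')) κ (hU.sq 0) hU.aba, neg_sq]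

theorem sum_sq_cg : ∃ t : PowerSeries ℚ, (sx + sx') ^ 2 = 4 + X * t := by
  have hs := sx_mul
  have e1 : sx' = 1 + X * (-sx') := by
    have : sx' * sx = 1 := by rw [mul_comm]; exact hs
    have e2 : sx' + sx' * X = 1 := by rw [← this]; unfold sx; ring
    linear_combination e2
  refine ⟨(1 - sx') * (sx + sx' + 2), ?_⟩
  have e3 : sx = (1 : PowerSeries ℚ) + X := rfl
  rw [e3]
  linear_combination (1 + X + sx' + 2) * e1

end

/-- the words and their inverses -/
def wd : ℕ → List (Fin 2 × Bool) × List (Fin 2 × Bool)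
  | 0 => ([(0, true), (1, true), (0, false), (1, false)],
      [(1, true), (0, true), (1, false), (0, false)])
  | j + 1 =>
    let w := wd j
    ([(0, true)] ++ w.1 ++ [(0, false)] ++ w.2, w.1 ++ [(0, true)] ++ w.2 ++ [(0, false)])

/-- evaluation -/
noncomputable def ev (U : Fin 2 → A) (l : List (Fin 2 × Bool)) : A :=
  (l.map fun x => sqr U x).prod

theorem ev_append (U : Fin 2 → A) (l l' : List (Fin 2 × Bool)) :
    ev U (l ++ l') = ev U l * ev U l' := by
  unfold ev
  rw [List.map_append, List.prod_append]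

theorem ev_single (U : Fin 2 → A) (x : Fin 2 × Bool) : ev U [x] = sqr U x := by
  simp [ev]

theorem wd_ne (j : ℕ) : (wd j).1 ≠ [] := by
  cases j with
  | zero => simp [wd]
  | succ j => simp [wd]

theorem wd_inv {U : Fin 2 → A} (hU : TL U) (j : ℕ) :
    ev U (wd j).1 * ev U (wd j).2 = 1 ∧ ev U (wd j).2 * ev U (wd j).1 = 1 := by
  have h0 := sqr_inv hU 0
  have h0' := sqr_inv' hU 0
  have h1 := sqr_inv hU 1
  have h1' := sqr_inv' hU 1
  induction j with
  | zero =>
    have e1 : ev U (wd 0).1 = sqr U (0, true) * (sqr U (1, true) * (sqr U (0, false) *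
        sqr U (1, false))) := by simp [ev, wd]
    have e2 : ev U (wd 0).2 = sqr U (1, true) * (sqr U (0, true) * (sqr U (1, false) *
        sqr U (0, false))) := by simp [ev, wd]
    rw [e1, e2]
    constructor
    · calc sqr U (0, true) * (sqr U (1, true) * (sqr U (0, false) * sqr U (1, false))) *
            (sqr U (1, true) * (sqr U (0, true) * (sqr U (1, false) * sqr U (0, false))))
          = sqr U (0, true) * (sqr U (1, true) * (sqr U (0, false) * ((sqr U (1, false) *
            sqr U (1, true)) * (sqr U (0, true) * (sqr U (1, false) * sqr U (0, false)))))) := by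
              simp only [mul_assoc]
        _ = sqr U (0, true) * (sqr U (1, true) * ((sqr U (0, false) * sqr U (0, true)) *
            (sqr U (1, false) * sqr U (0, false)))) := by
              rw [h1']; simp only [mul_assoc, one_mul]
        _ = sqr U (0, true) * ((sqr U (1, true) * sqr U (1, false)) * sqr U (0, false)) := by
              rw [h0']; simp only [mul_assoc, one_mul]
        _ = 1 := by rw [h1, one_mul, h0]
    · calc sqr U (1, true) * (sqr U (0, true) * (sqr U (1, false) * sqr U (0, false))) *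
            (sqr U (0, true) * (sqr U (1, true) * (sqr U (0, false) * sqr U (1, false))))
          = sqr U (1, true) * (sqr U (0, true) * (sqr U (1, false) * ((sqr U (0, false) *
            sqr U (0, true)) * (sqr U (1, true) * (sqr U (0, false) * sqr U (1, false)))))) := by
              simp only [mul_assoc]
        _ = sqr U (1, true) * (sqr U (0, true) * ((sqr U (1, false) * sqr U (1, true)) *
            (sqr U (0, false) * sqr U (1, false)))) := by
              rw [h0']; simp only [mul_assoc, one_mul]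
        _ = sqr U (1, true) * ((sqr U (0, true) * sqr U (0, false)) * sqr U (1, false)) := by
              rw [h1']; simp only [mul_assoc, one_mul]
        _ = 1 := by rw [h0, one_mul, h1]
  | succ j ih =>
    obtain ⟨i1, i2⟩ := ih
    have e1 : ev U (wd (j + 1)).1 = sqr U (0, true) * ev U (wd j).1 * sqr U (0, false) *
        ev U (wd j).2 := by
      show ev U ([(0, true)] ++ (wd j).1 ++ [(0, false)] ++ (wd j).2) = _
      rw [ev_append, ev_append, ev_append, ev_single, ev_single]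
    have e2 : ev U (wd (j + 1)).2 = ev U (wd j).1 * sqr U (0, true) * ev U (wd j).2 *
        sqr U (0, false) := by
      show ev U ((wd j).1 ++ [(0, true)] ++ (wd j).2 ++ [(0, false)]) = _
      rw [ev_append, ev_append, ev_append, ev_single, ev_single]
    rw [e1, e2]
    generalize sqr U (0, true) = P at *
    generalize sqr U (0, false) = P' at *
    generalize ev U (wd j).1 = g at *
    generalize ev U (wd j).2 = g' at *
    constructor
    · calc P * g * P' * g' * (g * P * g' * P') = P * g * P' * (g' * g) * (P * g' * P') := by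
            simp only [mul_assoc]
        _ = P * g * (P' * P) * (g' * P') := by rw [i2, mul_one]; simp only [mul_assoc]
        _ = P * (g * g') * P' := by rw [h0', mul_one]; simp only [mul_assoc]
        _ = 1 := by rw [i1, mul_one, h0]
    · calc g * P * g' * P' * (P * g * P' * g') = g * P * g' * (P' * P) * (g * P' * g') := by
            simp only [mul_assoc]
        _ = g * P * (g' * g) * (P' * g') := by rw [h0', mul_one]; simp only [mul_assoc]
        _ = g * (P * P') * g' := by rw [i2, mul_one]; simp only [mul_assoc]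
        _ = 1 := by rw [h0, mul_one, i1]

/-- one commutator with `σ₀²` -/
theorem one_step {U : Fin 2 → A} (hU : TL U) {g g' G F : A} (k : ℕ) (hk : 1 ≤ k)
    (h3 : g * g' = 1) (h4 : g' * g = 1) (hg : g = 1 + (X ^ k : PowerSeries ℚ) • G) (hG : Cg G F) :
    ∃ H : A, sqr U (0, true) * g * sqr U (0, false) * g' = 1 + (X ^ (k + 1) : PowerSeries ℚ) • H ∧
      Cg H (((2 : PowerSeries ℚ) • ((1 : A) - U 0)) * F - F * ((2 : PowerSeries ℚ) • ((1 : A) - U 0))) := by
  refine ⟨_, comm_step k (sqr_inv hU 0) h3 (sqr_eq hU 0) hg, ?_⟩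
  have c1 : Cg (sqr U (0, false)) (1 : A) := inv_cg (sqr_inv' hU 0) (sqr_eq hU 0)
  have c2 : Cg g' (1 : A) := by
    obtain ⟨k', rfl⟩ : ∃ k', k = k' + 1 := ⟨k - 1, by omega⟩
    refine inv_cg h4 (N := (X ^ k' : PowerSeries ℚ) • G) ?_
    rw [hg, smul_smul, pow_succ']
  have c3 := Cg.sub (Cg.mul (NN_cg (U := U) 0) hG) (Cg.mul hG (NN_cg (U := U) 0))
  have c4 := Cg.mul (Cg.mul c3 c1) c2
  rwa [mul_one, mul_one] at c4

theorem main {U : Fin 2 → A} (hU : TL U) (j : ℕ) :
    ∃ G : A, ev U (wd (2 * j)).1 = 1 + (X ^ (2 * j + 2) : PowerSeries ℚ) • G ∧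
      Cg G ((C (4 * 16 ^ j : ℚ) : PowerSeries ℚ) • cc U) := by
  induction j with
  | zero =>
    have e1 : ev U (wd (2 * 0)).1 = sqr U (0, true) * sqr U (1, true) * sqr U (0, false) *
        sqr U (1, false) := by simp [ev, wd, mul_assoc]
    have hP1 : sqr U (1, true) = 1 + (X ^ 1 : PowerSeries ℚ) • NN U 1 := by
      rw [pow_one]; exact sqr_eq hU 1
    refine ⟨(NN U 0 * NN U 1 - NN U 1 * NN U 0) * sqr U (0, false) * sqr U (1, false), ?_, ?_⟩
    · rw [e1]
      exact comm_step 1 (sqr_inv hU 0) (sqr_inv hU 1) (sqr_eq hU 0) hP1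
    · rw [comm_start]
      have c1 : Cg (sqr U (0, false)) (1 : A) := inv_cg (sqr_inv' hU 0) (sqr_eq hU 0)
      have c2 : Cg (sqr U (1, false)) (1 : A) := inv_cg (sqr_inv' hU 1) (sqr_eq hU 1)
      have c3 : Cg (((2 + X) ^ 2 * sx ^ 6 : PowerSeries ℚ) • cc U)
          ((C (4 * 16 ^ 0 : ℚ) : PowerSeries ℚ) • cc U) := by
        refine Cg.scal ?_ _
        refine ⟨(4 + X) * sx ^ 6 + 4 * (6 + 15 * X + 20 * X ^ 2 + 15 * X ^ 3 + 6 * X ^ 4 + X ^ 5), ?_⟩
        have : (C (4 * 16 ^ 0 : ℚ) : PowerSeries ℚ) = 4 := by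
          rw [pow_zero, mul_one]; exact map_ofNat _ 4
        rw [this]
        unfold sx
        ring
      have c4 := Cg.mul (Cg.mul c3 c1) c2
      rwa [mul_one, mul_one] at c4
  | succ j ih =>
    obtain ⟨G, hG1, hG2⟩ := ih
    obtain ⟨i1, i2⟩ := wd_inv hU (2 * j)
    obtain ⟨H, hH1, hH2⟩ := one_step hU (2 * j + 2) (by omega) i1 i2 hG1 hG2
    have e1 : ev U (wd (2 * j + 1)).1 = sqr U (0, true) * ev U (wd (2 * j)).1 *
        sqr U (0, false) * ev U (wd (2 * j)).2 := by
      show ev U ([(0, true)] ++ (wd (2 * j)).1 ++ [(0, false)] ++ (wd (2 * j)).2) = _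
      rw [ev_append, ev_append, ev_append, ev_single, ev_single]
    rw [← e1] at hH1
    obtain ⟨i3, i4⟩ := wd_inv hU (2 * j + 1)
    obtain ⟨K, hK1, hK2⟩ := one_step hU (2 * j + 2 + 1) (by omega) i3 i4 hH1 hH2
    have e2 : ev U (wd (2 * j + 1 + 1)).1 = sqr U (0, true) * ev U (wd (2 * j + 1)).1 *
        sqr U (0, false) * ev U (wd (2 * j + 1)).2 := by
      show ev U ([(0, true)] ++ (wd (2 * j + 1)).1 ++ [(0, false)] ++ (wd (2 * j + 1)).2) = _
      rw [ev_append, ev_append, ev_append, ev_single, ev_single]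
    rw [← e2] at hK1
    refine ⟨K, ?_, ?_⟩
    · show ev U (wd (2 * j + 1 + 1)).1 = 1 + (X ^ (2 * j + 2 + 1 + 1) : PowerSeries ℚ) • K
      exact hK1
    · refine Cg.trans hK2 ?_
      rw [comm_two hU]
      refine Cg.scal ?_ _
      obtain ⟨t, ht⟩ := sum_sq_cg
      refine ⟨4 * t * C (4 * 16 ^ j : ℚ), ?_⟩
      rw [ht]
      have : (C (4 * 16 ^ (j + 1) : ℚ) : PowerSeries ℚ) = 16 * C (4 * 16 ^ j : ℚ) := by
        rw [show (4 * 16 ^ (j + 1) : ℚ) = 16 * (4 * 16 ^ j) by ring, map_mul]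
        congr 1
      rw [this]
      ring

end GAD

open GAD in
theorem t_GAD : S_GAD := by
  intro j
  refine ⟨(wd (2 * j)).1, wd_ne _, 4 * 16 ^ j, by positivity, ?_⟩
  intro A _ _ U hU
  obtain ⟨G, hG1, D, hD⟩ := main hU j
  refine ⟨D, ?_⟩
  show ev U (wd (2 * j)).1 = _
  rw [hG1, hD]
  rfl

end Pool.Agent.K6.H17.HO
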