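import Pool.Agent.K6.H17.HO.Tog

/-!
# The induction on the order
-/

set_option autoImplicit false

namespace Pool.Agent.K6.H17.HO

open Finset
open Pool.Agent.H835R2.Knot (Piece Word Front IsKnot IsInvariant DegreeLE circle)
open Pool.Agent.Y466.FT (Braid draw piece)

noncomputable section

/-- splitting a word -/
theorem split_toB {m n₁ N L : ℕ} (w : Fin (n₁ + N * L) → Lett m) :
    ∃ (w₁ : Fin n₁ → Lett m) (B : Fin N → Fin L → Lett m), toB w = toB w₁ ++ flat B := by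
  refine ⟨fun i => w (Fin.castAdd _ i), fun i j => w (Fin.natAdd n₁ ⟨(i : ℕ) * L + j, ?_⟩), ?_⟩
  · calc (i : ℕ) * L + j < i * L + L := Nat.add_lt_add_left j.2 _
      _ = (i + 1) * L := by ring
      _ ≤ N * L := Nat.mul_le_mul_right _ i.2
  · unfold toB flat
    rw [List.ofFn_add, List.ofFn_mul]
    rfl

open Classical in
theorem count_split {m n₁ N L : ℕ} (P : Braid → Prop) :
    #{w : Fin (n₁ + N * L) → Lett m | P (toB w)} ≤
      ∑ B : Fin N → Fin L → Lett m, #{w₁ : Fin n₁ → Lett m | P (toB w₁ ++ flat B)} := by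
  have e : ∑ B : Fin N → Fin L → Lett m, #{w₁ : Fin n₁ → Lett m | P (toB w₁ ++ flat B)} =
      #{z : (Fin N → Fin L → Lett m) × (Fin n₁ → Lett m) | P (toB z.2 ++ flat z.1)} := by
    simp only [card_filter]
    rw [Fintype.sum_prod_type]
  rw [e]
  choose f g h using fun w : Fin (n₁ + N * L) → Lett m => split_toB w
  refine card_le_card_of_injOn (fun w => (g w, f w)) ?_ ?_
  · intro w hw
    simp only [coe_filter, mem_univ, true_and, Set.mem_ofPred_eq] at hw ⊢
    rw [← h]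
    exact hw
  · intro w _ w' _ hww
    simp only [Prod.mk.injEq] at hww
    apply toB_inj
    rw [h, h, hww.1, hww.2]

variable {m : ℕ}

open Classical in
theorem sum_tog (hLO : S_LO) (hCO : S_COL) (hA : S_ALG) (hC : S_CHI) (hK : S_CAT) (hm : 3 ≤ m) {r : ℕ}
    (W : Window m (2 * r + 2)) (V : ℕ → ℚ) {n₁ N : ℕ} (B : Fin N → Fin W.L → Lett m) {q : Braid}
    (hq : Vd m q) :
    ∑ S : Fin N → Bool, #{w₁ : Fin n₁ → Lett m |
        Jp m V (r + 1) (toB w₁ ++ flat (tog W.a W.b S B) ++ q)} ≤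
      #{w₁ : Fin n₁ → Lett m | Jp m V r (toB w₁ ++ (flat B ++ q))} *
        (2 ^ (N - nact W.a W.b B) * (nact W.a W.b B).choose (nact W.a W.b B / 2)) := by
  have e : ∑ S : Fin N → Bool, #{w₁ : Fin n₁ → Lett m |
        Jp m V (r + 1) (toB w₁ ++ flat (tog W.a W.b S B) ++ q)} =
      ∑ w₁ : Fin n₁ → Lett m, #{S : Fin N → Bool |
        Jp m V (r + 1) (toB w₁ ++ flat (tog W.a W.b S B) ++ q)} := by
    simp only [card_filter]
    exact sum_comm
  rw [e]
  refine le_trans (b := ∑ w₁ : Fin n₁ → Lett m, if Jp m V r (toB w₁ ++ (flat B ++ q)) then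
    (2 ^ (N - nact W.a W.b B) * (nact W.a W.b B).choose (nact W.a W.b B / 2)) else 0) ?_ ?_
  · refine sum_le_sum fun w₁ _ => ?_
    have h := tog_main hLO hCO hA hC hK hm W V B (toB_valid w₁) hq
    rw [← List.append_assoc]
    split_ifs with hJ
    · exact h.2 hJ
    · rw [Nat.le_zero, card_eq_zero, filter_eq_empty_iff]
      exact fun S _ hS => hJ (h.1 S hS)
  · rw [← sum_filter, sum_const, smul_eq_mul]

open Classical in
theorem step1 (hAV : S_AVG) (hLO : S_LO) (hCO : S_COL) (hA : S_ALG) (hC : S_CHI) (hK : S_CAT) (hm : 3 ≤ m)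
    {r : ℕ} (W : Window m (2 * r + 2)) {C : ℝ} (hC0 : 0 ≤ C)
    (ih : ∀ (n : ℕ) (q : Braid), Vd m q → ∀ V : ℕ → ℚ,
      (#{w : Fin n → Lett m | Jp m V r (toB w ++ q)} : ℝ) ≤
        C * (Fintype.card (Lett m) : ℝ) ^ n / Real.sqrt (n + 1) ^ r)
    (n n₁ N : ℕ) (hn : n = n₁ + N * W.L) (q : Braid) (hq : Vd m q) (V : ℕ → ℚ) :
    (#{w : Fin n → Lett m | Jp m V (r + 1) (toB w ++ q)} : ℝ) ≤
      (C * (Fintype.card (Lett m) : ℝ) ^ n₁ / Real.sqrt (n₁ + 1) ^ r) *
        ((Fintype.card (Lett m) : ℝ) ^ W.L) ^ N *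
        Real.sqrt ((Fintype.card (Lett m) : ℝ) ^ W.L / (2 * (N + 1))) := by
  subst hn
  have hcard : (Fintype.card (Fin W.L → Lett m) : ℝ) = (Fintype.card (Lett m) : ℝ) ^ W.L := by
    rw [Fintype.card_fun, Fintype.card_fin]
    push_cast
    rfl
  have h1 := count_split (m := m) (n₁ := n₁) (N := N) (L := W.L) (fun w => Jp m V (r + 1) (w ++ q))
  have h2 := hAV (Fin W.L → Lett m) W.a W.b W.ne N
    (fun B => (#{w₁ : Fin n₁ → Lett m | Jp m V (r + 1) (toB w₁ ++ flat B ++ q)} : ℝ))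
    (C * (Fintype.card (Lett m) : ℝ) ^ n₁ / Real.sqrt (n₁ + 1) ^ r) (by positivity) ?_
  · rw [hcard] at h2
    refine le_trans ?_ h2
    exact_mod_cast h1
  · intro B
    have h3 := sum_tog hLO hCO hA hC hK hm W V (n₁ := n₁) B hq
    have h4 := ih n₁ (flat B ++ q) ((Vd_flat B).app hq) V
    refine le_trans (b := (#{w₁ : Fin n₁ → Lett m | Jp m V r (toB w₁ ++ (flat B ++ q))} : ℝ) *
      ((2 : ℝ) ^ (N - nact W.a W.b B) * ((nact W.a W.b B).choose (nact W.a W.b B / 2) : ℝ))) ?_ ?_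
    · exact_mod_cast h3
    · exact mul_le_mul_of_nonneg_right h4 (by positivity)

open Classical in
/-- The bound for all orders. -/
theorem bound (hAV : S_AVG) (hLO : S_LO) (hCO : S_COL) (hA : S_ALG) (hC : S_CHI) (hK : S_CAT) (hG : S_GAD)
    (hm : 3 ≤ m) (r : ℕ) : ∃ C : ℝ, 0 ≤ C ∧ ∀ (n : ℕ) (q : Braid), Vd m q → ∀ V : ℕ → ℚ,
      (#{w : Fin n → Lett m | Jp m V r (toB w ++ q)} : ℝ) ≤
        C * (Fintype.card (Lett m) : ℝ) ^ n / Real.sqrt (n + 1) ^ r := by
  induction r with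
  | zero =>
    refine ⟨1, zero_le_one, fun n q _ V => ?_⟩
    rw [one_mul, pow_zero, div_one]
    have h : #{w : Fin n → Lett m | Jp m V 0 (toB w ++ q)} ≤ Fintype.card (Fin n → Lett m) :=
      card_le_univ _
    rw [Fintype.card_fun, Fintype.card_fin] at h
    exact_mod_cast h
  | succ r ih =>
    obtain ⟨C, hC0, ih⟩ := ih
    obtain ⟨W⟩ := window hm hG r
    set M : ℝ := (Fintype.card (Lett m) : ℝ) with hM
    have hM0 : 0 ≤ M := Nat.cast_nonneg _
    refine ⟨C * Real.sqrt (M ^ W.L * W.L) * Real.sqrt 2 ^ r, by positivity, fun n q hq V => ?_⟩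
    have hL := W.pos
    set N := n / (2 * W.L) with hN
    have h1 : 2 * W.L * N ≤ n := Nat.mul_div_le n (2 * W.L)
    have h2 : n < 2 * W.L * (N + 1) := Nat.lt_mul_div_succ n (by omega)
    have hNL : N * W.L ≤ n := by
      have : 2 * W.L * N = N * W.L + N * W.L := by ring
      omega
    have h3 := step1 hAV hLO hCO hA hC hK hm W hC0 ih n (n - N * W.L) N (by omega) q hq V
    refine h3.trans ?_
    set n₁ := n - N * W.L with hn₁
    have hn2 : n₁ + N * W.L = n := by omega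
    have e1 : M ^ n₁ * (M ^ W.L) ^ N = M ^ n := by
      rw [← pow_mul, ← pow_add, mul_comm W.L N, hn2]
    have q1 : Real.sqrt (n + 1) ^ r ≤ Real.sqrt 2 ^ r * Real.sqrt (n₁ + 1) ^ r := by
      rw [← mul_pow, ← Real.sqrt_mul (by norm_num)]
      refine pow_le_pow_left₀ (Real.sqrt_nonneg _) (Real.sqrt_le_sqrt ?_) r
      have : n + 1 ≤ 2 * (n₁ + 1) := by
        have : 2 * W.L * N = N * W.L + N * W.L := by ring
        omega
      exact_mod_cast this
    have q2 : Real.sqrt (M ^ W.L / (2 * (N + 1))) ≤ Real.sqrt (M ^ W.L * W.L) / Real.sqrt (n + 1) := by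
      rw [← Real.sqrt_div' _ (by positivity)]
      refine Real.sqrt_le_sqrt ?_
      rw [div_le_div_iff₀ (by positivity) (by positivity), mul_assoc]
      refine mul_le_mul_of_nonneg_left ?_ (by positivity)
      have : n + 1 ≤ W.L * (2 * (N + 1)) := by
        have : 2 * W.L * (N + 1) = W.L * (2 * (N + 1)) := by ring
        omega
      exact_mod_cast this
    have p1 : 0 < Real.sqrt (n₁ + 1) ^ r := pow_pos (Real.sqrt_pos.2 (by positivity)) r
    have p2 : 0 < Real.sqrt (n + 1) ^ r := pow_pos (Real.sqrt_pos.2 (by positivity)) r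
    have p3 : 0 < Real.sqrt ((n : ℝ) + 1) := Real.sqrt_pos.2 (by positivity)
    have q3 : 1 / Real.sqrt (n₁ + 1) ^ r ≤ Real.sqrt 2 ^ r / Real.sqrt (n + 1) ^ r := by
      rw [div_le_div_iff₀ p1 p2, one_mul]
      exact q1
    calc C * M ^ n₁ / Real.sqrt (n₁ + 1) ^ r * (M ^ W.L) ^ N * Real.sqrt (M ^ W.L / (2 * (N + 1)))
        = C * (M ^ n₁ * (M ^ W.L) ^ N) * (1 / Real.sqrt (n₁ + 1) ^ r *
          Real.sqrt (M ^ W.L / (2 * (N + 1)))) := by ring
      _ = C * M ^ n * (1 / Real.sqrt (n₁ + 1) ^ r * Real.sqrt (M ^ W.L / (2 * (N + 1)))) := by rw [e1]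
      _ ≤ C * M ^ n * (Real.sqrt 2 ^ r / Real.sqrt (n + 1) ^ r *
          (Real.sqrt (M ^ W.L * W.L) / Real.sqrt (n + 1))) :=
        mul_le_mul_of_nonneg_left (mul_le_mul q3 q2 (Real.sqrt_nonneg _) (by positivity)) (by positivity)
      _ = C * Real.sqrt (M ^ W.L * W.L) * Real.sqrt 2 ^ r * M ^ n / Real.sqrt (n + 1) ^ (r + 1) := by
        rw [pow_succ]
        field_simp

end

end Pool.Agent.K6.H17.HO
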