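import Pool.Agent.K6.H17.HO.Stm3

/-!
# KNO: which closed braids are knots (helper75 for helper17)
-/

set_option autoImplicit false

namespace Pool.Agent.K6.H17.HO

open Finset
open Pool.Agent.H835R2.Knot (Word Piece IsKnot Front)
open Pool.Agent.Y466.FT (Braid draw piece)

/-! ### fixed colourings and removal of the last point -/

/-- the permutation with the last point removed from its cycle -/
noncomputable def rem {k : ℕ} (σ : Equiv.Perm (Fin (k + 1))) : Equiv.Perm (Fin k) :=
  Equiv.removeNone (finSuccEquivLast.symm.trans (σ.trans finSuccEquivLast))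

theorem rem_last {k : ℕ} (σ : Equiv.Perm (Fin (k + 1))) (q : Fin k)
    (h : σ q.castSucc = Fin.last k) : (rem σ q).castSucc = σ (Fin.last k) := by
  have h1 := Equiv.removeNone_none (finSuccEquivLast.symm.trans (σ.trans finSuccEquivLast))
    (x := q) (by simp [h])
  have h2 : finSuccEquivLast.symm (some (rem σ q)) = σ (Fin.last k) := by
    rw [rem, h1]
    simp
  simpa using h2

theorem rem_ne {k : ℕ} (σ : Equiv.Perm (Fin (k + 1))) (q : Fin k)
    (h : σ q.castSucc ≠ Fin.last k) : (rem σ q).castSucc = σ q.castSucc := by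
  obtain ⟨r, hr⟩ := Fin.exists_castSucc_eq.2 h
  have h1 := Equiv.removeNone_some (finSuccEquivLast.symm.trans (σ.trans finSuccEquivLast))
    (x := q) ⟨r, by simp [← hr]⟩
  have h2 : finSuccEquivLast.symm (some (rem σ q)) = σ q.castSucc := by
    rw [rem, h1]
    simp
  simpa using h2

theorem mem_FxK {m : ℕ} (σ : Equiv.Perm (Fin m)) (b : Fin m → Bool) :
    b ∈ Fx σ ↔ ∀ i, b (σ i) = b i := by simp [Fx]

theorem Fx_rem_of_mem {k : ℕ} (σ : Equiv.Perm (Fin (k + 1))) (b : Fin (k + 1) → Bool)
    (hb : b ∈ Fx σ) : (fun q => b q.castSucc) ∈ Fx (rem σ) := by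
  rw [mem_FxK] at hb ⊢
  intro q
  by_cases h : σ q.castSucc = Fin.last k
  · show b (rem σ q).castSucc = b q.castSucc
    rw [rem_last σ q h, hb, ← h, hb]
  · show b (rem σ q).castSucc = b q.castSucc
    rw [rem_ne σ q h, hb]

theorem Fx_inv {m : ℕ} (σ : Equiv.Perm (Fin m)) : Fx σ⁻¹ = Fx σ := by
  ext b
  rw [mem_FxK, mem_FxK]
  constructor
  · intro h i
    have := h (σ i)
    rw [show σ⁻¹ (σ i) = i by simp] at this
    exact this.symm
  · intro h i
    have := h (σ⁻¹ i)
    rw [show σ (σ⁻¹ i) = i by simp] at this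
    exact this.symm

theorem Fx_card_fix {k : ℕ} (σ : Equiv.Perm (Fin (k + 1))) (h : σ (Fin.last k) = Fin.last k) :
    #(Fx σ) = 2 * #(Fx (rem σ)) := by
  have hne : ∀ q : Fin k, σ q.castSucc ≠ Fin.last k := by
    intro q hq
    rw [← h] at hq
    exact (Fin.castSucc_lt_last q).ne (σ.injective hq)
  have h1 : #(Fx (rem σ) ×ˢ (univ : Finset Bool)) = 2 * #(Fx (rem σ)) := by
    rw [card_product, card_univ, Fintype.card_bool, mul_comm]
  rw [← h1]
  refine card_nbij' (fun b => (fun q => b q.castSucc, b (Fin.last k)))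
    (fun x => Fin.snoc (α := fun _ => Bool) x.1 x.2) ?_ ?_ ?_ ?_
  · intro b hb
    rw [mem_coe, mem_product]
    exact ⟨Fx_rem_of_mem σ b hb, mem_univ _⟩
  · intro x hx
    rw [mem_coe, mem_product] at hx
    have h2 := (mem_FxK _ _).1 hx.1
    rw [mem_coe, mem_FxK]
    intro i
    dsimp only
    induction i using Fin.lastCases with
    | last => rw [h]
    | cast q =>
      rw [← rem_ne σ q (hne q), Fin.snoc_castSucc, Fin.snoc_castSucc, h2]
  · intro b _
    funext i
    induction i using Fin.lastCases with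
    | last => simp
    | cast q => simp
  · intro x _
    ext <;> simp

theorem Fx_card_ne {k : ℕ} (σ : Equiv.Perm (Fin (k + 1))) (h : σ (Fin.last k) ≠ Fin.last k) :
    #(Fx σ) = #(Fx (rem σ)) := by
  obtain ⟨r, hr⟩ := Fin.exists_castSucc_eq.2 h
  refine card_nbij' (fun b => (fun q => b q.castSucc))
    (fun x => Fin.snoc (α := fun _ => Bool) x (x r)) ?_ ?_ ?_ ?_
  · intro b hb
    exact Fx_rem_of_mem σ b hb
  · intro x hx
    have h2 := (mem_FxK _ _).1 hx
    rw [mem_coe, mem_FxK]
    intro i
    dsimp only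
    induction i using Fin.lastCases with
    | last => rw [← hr, Fin.snoc_castSucc, Fin.snoc_last]
    | cast q =>
      by_cases hq : σ q.castSucc = Fin.last k
      · have h3 : rem σ q = r := by
          have := rem_last σ q hq
          rw [← hr] at this
          exact Fin.castSucc_injective _ this
        rw [hq, Fin.snoc_castSucc, Fin.snoc_last, ← h2 q, h3]
      · rw [← rem_ne σ q hq, Fin.snoc_castSucc, Fin.snoc_castSucc, h2]
  · intro b hb
    have h2 := (mem_FxK _ _).1 hb
    funext i
    dsimp only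
    induction i using Fin.lastCases with
    | last =>
      rw [Fin.snoc_last, hr, h2]
    | cast q => simp
  · intro x _
    funext q
    simp

/-! ### the state of the diagram -/

/-- the strands below the maxima and the crossings -/
structure St (m : ℕ) (σ : Equiv.Perm (Fin m)) (F : Front) : Prop where
  n : F.n = 2 * m
  down : ∀ p < m, F.dir p = true
  upw : ∀ p, m ≤ p → p < 2 * m → F.dir p = false
  fd : ∀ p < m, F.fin p = p
  fu : ∀ q : Fin m, F.fin (2 * m - 1 - q) = σ q

theorem fits_append (u v : Word) (F : Front) : Pool.Agent.H835R2.Knot.Fits (u ++ v) F ↔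
    Pool.Agent.H835R2.Knot.Fits u F ∧
      Pool.Agent.H835R2.Knot.Fits v (Pool.Agent.H835R2.Knot.run u F) := by
  induction u generalizing F with
  | nil => simp [Pool.Agent.H835R2.Knot.Fits, Pool.Agent.H835R2.Knot.run]
  | cons p u ih =>
    simp only [List.cons_append, Pool.Agent.H835R2.Knot.Fits, Pool.Agent.H835R2.Knot.run, ih,
      and_assoc]

theorem run_append (u v : Word) (F : Front) : Pool.Agent.H835R2.Knot.run (u ++ v) F =
    Pool.Agent.H835R2.Knot.run v (Pool.Agent.H835R2.Knot.run u F) := by
  induction u generalizing F with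
  | nil => simp [Pool.Agent.H835R2.Knot.run]
  | cons p u ih => simp only [List.cons_append, Pool.Agent.H835R2.Knot.run, ih]

theorem comps_append (u v : Word) (F : Front) : Pool.Agent.H835R2.Knot.comps (u ++ v) F =
    Pool.Agent.H835R2.Knot.comps u F +
      Pool.Agent.H835R2.Knot.comps v (Pool.Agent.H835R2.Knot.run u F) := by
  induction u generalizing F with
  | nil => simp [Pool.Agent.H835R2.Knot.comps, Pool.Agent.H835R2.Knot.run]
  | cons p u ih =>
    simp only [List.cons_append, Pool.Agent.H835R2.Knot.comps, Pool.Agent.H835R2.Knot.run, ih,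
      add_assoc]

theorem topm_succ (m : ℕ) : topm (m + 1) = topm m ++ [Piece.birth m true] := by
  simp [topm, List.range_succ]

theorem st_top (m : ℕ) : Pool.Agent.H835R2.Knot.Fits (topm m) Front.empty ∧
    Pool.Agent.H835R2.Knot.comps (topm m) Front.empty = 0 ∧
    St m 1 (Pool.Agent.H835R2.Knot.run (topm m) Front.empty) := by
  induction m with
  | zero =>
    refine ⟨trivial, rfl, rfl, ?_, ?_, ?_, ?_⟩
    · intro p hp; omega
    · intro p hp hp'; omega
    · intro p hp; omega
    · intro q; exact q.elim0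
  | succ m ih =>
    obtain ⟨h1, h2, h3⟩ := ih
    rw [topm_succ, fits_append, comps_append, run_append]
    refine ⟨⟨h1, ?_, trivial⟩, ?_, ?_⟩
    · show m ≤ _
      rw [h3.n]; omega
    · rw [h2]
      simp [Pool.Agent.H835R2.Knot.comps, Piece.closes]
    · set F := Pool.Agent.H835R2.Knot.run (topm m) Front.empty with hF
      refine ⟨?_, ?_, ?_, ?_, ?_⟩
      · show F.n + 2 = _
        rw [h3.n]; ring
      · intro p hp
        show (if p < m then F.dir p else if p = m then true else if p = m + 1 then !true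
          else F.dir (p - 2)) = true
        by_cases h4 : p < m
        · rw [if_pos h4, h3.down p h4]
        · rw [if_neg h4, if_pos (by omega)]
      · intro p hp hp'
        show (if p < m then F.dir p else if p = m then true else if p = m + 1 then !true
          else F.dir (p - 2)) = false
        rw [if_neg (by omega), if_neg (by omega)]
        by_cases h4 : p = m + 1
        · rw [if_pos h4]; rfl
        · rw [if_neg h4, h3.upw _ (by omega) (by omega)]
      · intro p hp
        show (if p < m then Pool.Agent.H835R2.Knot.up m (F.fin p) else if p = m ∨ p = m + 1 then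
          (if true then m else m + 1) else Pool.Agent.H835R2.Knot.up m (F.fin (p - 2))) = p
        by_cases h4 : p < m
        · rw [if_pos h4, h3.fd p h4, Pool.Agent.H835R2.Knot.up, if_pos h4]
        · rw [if_neg h4, if_pos (by omega), if_pos rfl]; omega
      · intro q
        show (if (2 * (m + 1) - 1 - q : ℕ) < m then
            Pool.Agent.H835R2.Knot.up m (F.fin (2 * (m + 1) - 1 - q))
          else if (2 * (m + 1) - 1 - q : ℕ) = m ∨ (2 * (m + 1) - 1 - q : ℕ) = m + 1 then
          (if true then m else m + 1)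
          else Pool.Agent.H835R2.Knot.up m (F.fin ((2 * (m + 1) - 1 - q : ℕ) - 2))) = (q : ℕ)
        have hq := q.2
        rw [if_neg (by omega)]
        by_cases h4 : (q : ℕ) = m
        · rw [if_pos (by omega), if_pos rfl, h4]
        · rw [if_neg (by omega)]
          have h5 := h3.fu ⟨q, by omega⟩
          simp only [Equiv.Perm.coe_one, id_eq] at h5
          rw [show (2 * (m + 1) - 1 - q : ℕ) - 2 = 2 * m - 1 - q by omega, h5,
            Pool.Agent.H835R2.Knot.up, if_pos (by omega)]

/-- the transposition of a letter -/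
def tr (m : ℕ) (l : Bool × ℕ) : Equiv.Perm (Fin m) :=
  if h : l.2 + 1 < m then Equiv.swap ⟨l.2, by omega⟩ ⟨l.2 + 1, h⟩ else 1

theorem sw_eq (m : ℕ) (l : Bool × ℕ) (h : l.2 + 1 < m) (x : Fin m) :
    Pool.Agent.H835R2.Knot.sw l.2 x = (tr m l x : ℕ) := by
  rw [Pool.Agent.H835R2.Knot.sw, tr, dif_pos h]
  by_cases h1 : (x : ℕ) = l.2
  · rw [if_pos h1, show x = ⟨l.2, by omega⟩ from Fin.ext h1, Equiv.swap_apply_left]
  · by_cases h2 : (x : ℕ) = l.2 + 1
    · rw [if_neg h1, if_pos h2, show x = ⟨l.2 + 1, h⟩ from Fin.ext h2, Equiv.swap_apply_right]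
    · rw [if_neg h1, if_neg h2, Equiv.swap_apply_of_ne_of_ne]
      · intro h3; exact h1 (by rw [h3])
      · intro h3; exact h2 (by rw [h3])

theorem st_letter (m : ℕ) (σ : Equiv.Perm (Fin m)) (F : Front) (h : St m σ F) (l : Bool × ℕ)
    (hl : l.2 + 1 < m) : (piece l).Fits F ∧ (piece l).closes F = false ∧
      St m (tr m l * σ) ((piece l).act F) := by
  have hf : (piece l).Fits F := by
    rw [piece]
    have := h.n
    split_ifs
    · show l.2 + 2 ≤ F.n
      omega
    · show l.2 + 2 ≤ F.n
      omega
  have hc : (piece l).closes F = false := by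
    rw [piece]
    split_ifs <;> rfl
  have ha : (piece l).act F = ⟨F.n, (fun p => F.dir (Pool.Agent.H835R2.Knot.sw l.2 p)),
      (fun p => Pool.Agent.H835R2.Knot.sw l.2 (F.fin (Pool.Agent.H835R2.Knot.sw l.2 p)))⟩ := by
    rw [piece]
    split_ifs <;> rfl
  refine ⟨hf, hc, ?_⟩
  rw [ha]
  have hlt : ∀ p < m, Pool.Agent.H835R2.Knot.sw l.2 p < m := by
    intro p hp
    rw [Pool.Agent.H835R2.Knot.sw]
    split_ifs <;> omega
  have hge : ∀ p, m ≤ p → Pool.Agent.H835R2.Knot.sw l.2 p = p := by
    intro p hp
    rw [Pool.Agent.H835R2.Knot.sw, if_neg (by omega), if_neg (by omega)]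
  refine ⟨h.n, ?_, ?_, ?_, ?_⟩
  · intro p hp
    exact h.down _ (hlt p hp)
  · intro p hp hp'
    show F.dir (Pool.Agent.H835R2.Knot.sw l.2 p) = false
    rw [hge p hp]
    exact h.upw p hp hp'
  · intro p hp
    show Pool.Agent.H835R2.Knot.sw l.2 (F.fin (Pool.Agent.H835R2.Knot.sw l.2 p)) = p
    rw [h.fd _ (hlt p hp)]
    simp only [Pool.Agent.H835R2.Knot.sw]
    split_ifs <;> omega
  · intro q
    show Pool.Agent.H835R2.Knot.sw l.2 (F.fin (Pool.Agent.H835R2.Knot.sw l.2 (2 * m - 1 - q))) = _
    rw [hge (2 * m - 1 - q) (by have := q.2; omega), h.fu q, sw_eq m l hl]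
    rfl

theorem st_draw (m : ℕ) (w : Braid) (hw : ∀ l ∈ w, l.2 + 1 < m) : ∀ (σ : Equiv.Perm (Fin m))
    (F : Front), St m σ F → Pool.Agent.H835R2.Knot.Fits (draw w) F ∧
      Pool.Agent.H835R2.Knot.comps (draw w) F = 0 ∧
      St m ((pf m w)⁻¹ * σ) (Pool.Agent.H835R2.Knot.run (draw w) F) := by
  induction w with
  | nil =>
    intro σ F h
    refine ⟨trivial, rfl, ?_⟩
    simpa [pf, draw, Pool.Agent.H835R2.Knot.run] using h
  | cons l w ih =>
    intro σ F h
    obtain ⟨h1, h2, h3⟩ := st_letter m σ F h l (hw l (by simp))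
    obtain ⟨h4, h5, h6⟩ := ih (fun l' hl' => hw l' (by simp [hl'])) _ _ h3
    have hpf : pf m (l :: w) = tr m l * pf m w := by
      simp [pf, tr]
    have htr : (tr m l)⁻¹ = tr m l := by
      rw [tr]
      split_ifs
      · exact Equiv.swap_inv _ _
      · exact inv_one
    refine ⟨⟨h1, h4⟩, ?_, ?_⟩
    · show (if (piece l).closes F then 1 else 0) + _ = 0
      rw [h2, if_neg (by simp), zero_add]
      exact h5
    · rw [hpf, mul_inv_rev, htr, mul_assoc]
      exact h6

theorem st_bot (m : ℕ) : ∀ (σ : Equiv.Perm (Fin m)) (F : Front), St m σ F →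
    Pool.Agent.H835R2.Knot.Fits (botm m) F ∧
      (Pool.Agent.H835R2.Knot.run (botm m) F).n = 0 ∧
      2 ^ (Pool.Agent.H835R2.Knot.comps (botm m) F) = #(Fx σ) := by
  induction m with
  | zero =>
    intro σ F h
    refine ⟨trivial, ?_, ?_⟩
    · show F.n = 0
      rw [h.n]
    · show 2 ^ 0 = _
      have : Fx σ = univ := by
        ext b
        rw [mem_FxK]
        exact ⟨fun _ => mem_univ _, fun _ i => i.elim0⟩
      rw [this]
      simp
  | succ k ih =>
    intro σ F h
    have hk : F.dir k = true := h.down k (by omega)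
    have hk1 : F.dir (k + 1) = false := h.upw (k + 1) (by omega) (by omega)
    have hout : F.out k = k := by rw [Front.out, hk]; rfl
    have hinn : F.inn k = k + 1 := by rw [Front.inn, hk]; rfl
    have hfin : F.fin (k + 1) = (σ (Fin.last k) : ℕ) := by
      have := h.fu (Fin.last k)
      rw [← this]
      congr 1
      simp only [Fin.val_last]
      omega
    have hst : St k (rem σ) ((Piece.death k).act F) := by
      refine ⟨?_, ?_, ?_, ?_, ?_⟩
      · show F.n - 2 = _
        rw [h.n]; omega
      · intro p hp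
        show F.dir (Pool.Agent.H835R2.Knot.up k p) = true
        rw [Pool.Agent.H835R2.Knot.up, if_pos hp]
        exact h.down p (by omega)
      · intro p hp hp'
        show F.dir (Pool.Agent.H835R2.Knot.up k p) = false
        rw [Pool.Agent.H835R2.Knot.up, if_neg (by omega)]
        exact h.upw _ (by omega) (by omega)
      · intro p hp
        show (if F.fin (Pool.Agent.H835R2.Knot.up k p) = F.out k then
          Pool.Agent.H835R2.Knot.dn k (F.fin (F.inn k))
          else Pool.Agent.H835R2.Knot.dn k (F.fin (Pool.Agent.H835R2.Knot.up k p))) = p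
        rw [hout, Pool.Agent.H835R2.Knot.up, if_pos hp, h.fd p (by omega), if_neg (by omega),
          Pool.Agent.H835R2.Knot.dn, if_pos hp]
      · intro q
        show (if F.fin (Pool.Agent.H835R2.Knot.up k (2 * k - 1 - q)) = F.out k then
          Pool.Agent.H835R2.Knot.dn k (F.fin (F.inn k))
          else Pool.Agent.H835R2.Knot.dn k (F.fin (Pool.Agent.H835R2.Knot.up k (2 * k - 1 - q)))) = _
        have hq := q.2
        have h7 : F.fin (Pool.Agent.H835R2.Knot.up k (2 * k - 1 - q)) = (σ q.castSucc : ℕ) := by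
          rw [← h.fu q.castSucc]
          congr 1
          rw [Pool.Agent.H835R2.Knot.up, if_neg (by omega)]
          simp only [Fin.val_castSucc]
          omega
        rw [h7, hout, hinn, hfin]
        by_cases h8 : σ q.castSucc = Fin.last k
        · have h9 : σ (Fin.last k) ≠ Fin.last k := by
            intro h9
            rw [← h9] at h8
            exact (Fin.castSucc_lt_last q).ne (σ.injective h8)
          have h10 : (σ (Fin.last k) : ℕ) < k := by
            have := (σ (Fin.last k)).2
            rcases Nat.lt_succ_iff_lt_or_eq.1 this with h | h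
            · exact h
            · exact absurd (Fin.ext h) h9
          rw [if_pos (by rw [h8]; simp), Pool.Agent.H835R2.Knot.dn, if_pos h10,
            ← rem_last σ q h8, Fin.val_castSucc]
        · have h10 : (σ q.castSucc : ℕ) < k := by
            have := (σ q.castSucc).2
            rcases Nat.lt_succ_iff_lt_or_eq.1 this with h | h
            · exact h
            · exact absurd (Fin.ext h) h8
          rw [if_neg (by omega), Pool.Agent.H835R2.Knot.dn, if_pos h10,
            ← rem_ne σ q h8, Fin.val_castSucc]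
    obtain ⟨h1, h2, h3⟩ := ih (rem σ) _ hst
    refine ⟨⟨⟨?_, ?_⟩, h1⟩, h2, ?_⟩
    · rw [h.n]; omega
    · rw [hk, hk1]; rfl
    · show 2 ^ ((if (Piece.death k).closes F then 1 else 0) +
        Pool.Agent.H835R2.Knot.comps (botm k) ((Piece.death k).act F)) = _
      have hcl : ((Piece.death k).closes F = true) ↔ σ (Fin.last k) = Fin.last k := by
        show (decide (F.fin (F.inn k) = F.out k) = true) ↔ _
        rw [decide_eq_true_iff, hinn, hout, hfin]
        constructor
        · intro h4; exact Fin.ext h4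
        · intro h4; rw [h4]; rfl
      by_cases h4 : σ (Fin.last k) = Fin.last k
      · rw [if_pos (hcl.2 h4), pow_add, h3, Fx_card_fix σ h4, pow_one]
      · rw [if_neg (fun h5 => h4 (hcl.1 h5)), zero_add, h3, Fx_card_ne σ h4]

theorem cl_comps (m : ℕ) (w : Braid) (hw : ∀ l ∈ w, l.2 + 1 < m) :
    Pool.Agent.H835R2.Knot.Closed (cl m w) ∧
      2 ^ (Pool.Agent.H835R2.Knot.comps (cl m w) Front.empty) = #(Fx (pf m w)) := by
  obtain ⟨h1, h2, h3⟩ := st_top m
  obtain ⟨h4, h5, h6⟩ := st_draw m w hw _ _ h3
  obtain ⟨h7, h8, h9⟩ := st_bot m _ _ h6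
  rw [mul_one, Fx_inv] at h9
  refine ⟨⟨?_, ?_⟩, ?_⟩
  · rw [cl, fits_append, fits_append, run_append]
    exact ⟨⟨h1, h4⟩, h7⟩
  · rw [cl, run_append, run_append]
    exact h8
  · rw [cl, comps_append, comps_append, run_append, h2, h5, zero_add, zero_add]
    exact h9

theorem t_KNO : S_KNO := by
  intro m w hw
  obtain ⟨h1, h2⟩ := cl_comps m w hw
  rw [← h2]
  constructor
  · intro h
    rw [h.2]; rfl
  · intro h
    refine ⟨h1, ?_⟩
    have h3 : 2 ^ (Pool.Agent.H835R2.Knot.comps (cl m w) Front.empty) = 2 ^ 1 := by rw [h, pow_one]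
    exact Nat.pow_right_injective le_rfl h3

end Pool.Agent.K6.H17.HO
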