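import Pool.Agent.K6.H17.HO.Win

/-!
# The coefficients of the windows
-/

set_option autoImplicit false

namespace Pool.Agent.K6.H17.HO

open Finset
open Pool.Agent.H835R2.Knot (Piece Word Front IsKnot IsInvariant DegreeLE circle)
open Pool.Agent.H838R2.SL (opD valD hsx)
open Pool.Agent.H838R2.Jones
open Pool.Agent.Y466.FT (Braid draw piece)
open Pool.Agent.K6.H17.LC (lc vn vn_inv vn_deg opD_map)
open PowerSeries

noncomputable section

/-- all letters are between strands -/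
def Vd (m : ℕ) (w : Braid) : Prop := ∀ l ∈ w, l.2 + 1 < m

theorem Vd.app {m : ℕ} {u w : Braid} (hu : Vd m u) (hw : Vd m w) : Vd m (u ++ w) := by
  intro l h
  rw [List.mem_append] at h
  exact h.elim (hu l) (hw l)

theorem Vd.left {m : ℕ} {u w : Braid} (h : Vd m (u ++ w)) : Vd m u :=
  fun l hl => h l (List.mem_append_left _ hl)

theorem Vd.right {m : ℕ} {u w : Braid} (h : Vd m (u ++ w)) : Vd m w :=
  fun l hl => h l (List.mem_append_right _ hl)

/-- the functional -/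
abbrev La (m : ℕ) : Module.End ℚ⟦X⟧ (F ℚ⟦X⟧) →ₗ[ℚ⟦X⟧] ℚ⟦X⟧ := Lam sx sx' m

/-- the operators -/
abbrev rr (w : Braid) : Module.End ℚ⟦X⟧ (F ℚ⟦X⟧) := rho sx sx' w

theorem valD_cl {m : ℕ} {w : Braid} (hw : Vd m w) : valD (cl m w) = La m (rr w) := val_cl sx sx' w hw

theorem cc_sx : constantCoeff (R := ℚ) sx = 1 := by simp [sx]
theorem cc_sx' : constantCoeff (R := ℚ) sx' = 1 := by
  have h := congrArg (constantCoeff (R := ℚ)) hs1
  rw [map_mul, cc_sx, one_mul, map_one] at h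
  exact h

/-- the value at `X = 0` -/
theorem coeff_zero_cl (hC : S_CHI) {m : ℕ} {w : Braid} (hw : Vd m w) :
    coeff 0 (valD (cl m w)) = (-1) ^ (w.length + m) * (#(Fx (pf m w)) : ℚ) := by
  have h := congrFun (opD_map (s := sx) (s' := sx') (constantCoeff (R := ℚ)) (cl m w) (fun _ => true) 1)
    (fun _ => false)
  have e : (fun σ : ℕ → Bool => constantCoeff (R := ℚ) ((1 : F ℚ⟦X⟧) σ)) = 1 := by
    funext σ
    exact map_one _
  rw [cc_sx, cc_sx', e, hC m w hw] at h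
  rw [coeff_zero_eq_constantCoeff_apply]
  exact h.symm

theorem knot_Fx (hC : S_CHI) {m : ℕ} {w : Braid} (hw : Vd m w) (hk : IsKnot (cl m w)) :
    #(Fx (pf m w)) = 2 := by
  have h := RB.const0 (vn_inv 0) (vn_deg 0) hk
  have e : vn 0 circle = -2 := by
    show coeff 0 (valD circle) = -2
    have h1 : valD circle = (LC.dl sx sx' • (1 : F ℚ⟦X⟧)) (fun _ => false) :=
      congrFun (LC.val_circle (s := sx) (s' := sx')) _
    rw [h1, Pi.smul_apply, Pi.one_apply, smul_eq_mul, mul_one, coeff_zero_eq_constantCoeff_apply]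
    unfold LC.dl
    rw [map_neg, map_add, cc_sx, cc_sx']
    norm_num
  rw [e] at h
  have h2 : (-1 : ℚ) ^ (w.length + m) * (#(Fx (pf m w)) : ℚ) = -2 := (coeff_zero_cl hC hw).symm.trans h
  rcases neg_one_pow_eq_or ℚ (w.length + m) with h3 | h3
  · rw [h3, one_mul] at h2
    have : (0 : ℚ) ≤ (#(Fx (pf m w)) : ℚ) := Nat.cast_nonneg _
    linarith
  · rw [h3] at h2
    have : (#(Fx (pf m w)) : ℚ) = 2 := by linarith
    exact_mod_cast this

/-- the two products of two generators -/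
theorem comm_eq : Ug 0 * Ug 1 - Ug 1 * Ug 0 = sx' ^ 4 • (rr [(true, 0), (true, 1)] - rr [(true, 1), (true, 0)]) := by
  have e : rr [(true, 0), (true, 1)] = el Ug (0, true) * el Ug (1, true) := by
    rw [el_Ug, el_Ug]
    show rho sx sx' _ = _
    rw [rho_cons, rho_cons, rho_nil, mul_one]
    rfl
  have e' : rr [(true, 1), (true, 0)] = el Ug (1, true) * el Ug (0, true) := by
    rw [el_Ug, el_Ug]
    show rho sx sx' _ = _
    rw [rho_cons, rho_cons, rho_nil, mul_one]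
    rfl
  have e4 : sx' ^ 4 * sx ^ 4 = 1 := by rw [← mul_pow, mul_comm, hs1, one_pow]
  have h : rr [(true, 0), (true, 1)] - rr [(true, 1), (true, 0)] = sx ^ 4 • (Ug 0 * Ug 1 - Ug 1 * Ug 0) := by
    rw [e, e']
    show ((-sx) • (1 : Module.End ℚ⟦X⟧ (F ℚ⟦X⟧)) + (-sx ^ 2) • Ug 0) *
      ((-sx) • (1 : Module.End ℚ⟦X⟧ (F ℚ⟦X⟧)) + (-sx ^ 2) • Ug 1) -
      ((-sx) • (1 : Module.End ℚ⟦X⟧ (F ℚ⟦X⟧)) + (-sx ^ 2) • Ug 1) *
      ((-sx) • (1 : Module.End ℚ⟦X⟧ (F ℚ⟦X⟧)) + (-sx ^ 2) • Ug 0) = _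
    simp only [add_mul, mul_add, smul_mul_smul_comm, one_mul, mul_one, neg_mul_neg, smul_sub]
    have e5 : sx ^ 2 * sx ^ 2 = sx ^ 4 := by ring
    have e6 : sx * sx ^ 2 = sx ^ 2 * sx := by ring
    rw [e5, e6]
    abel
  rw [h, smul_smul, e4, one_smul]

theorem coeff_zero_mul (p q : ℚ⟦X⟧) : coeff 0 (p * q) = constantCoeff p * coeff 0 q := by
  rw [coeff_zero_eq_constantCoeff_apply, coeff_zero_eq_constantCoeff_apply, map_mul]

/-- the coefficient is not zero -/
theorem key_ne (hC : S_CHI) (hL : S_COL) {m : ℕ} (hm : 3 ≤ m) {x y : Braid} (hx : Vd m x) (hy : Vd m y)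
    (h2 : #(Fx (pf m (x ++ y))) = 2) {κ : ℚ} (hκ : κ ≠ 0) (G : Module.End ℚ⟦X⟧ (F ℚ⟦X⟧)) :
    coeff 0 (La m (rr x * ((C κ : ℚ⟦X⟧) • (Ug 0 * Ug 1 - Ug 1 * Ug 0) + (X : ℚ⟦X⟧) • G) * rr y)) ≠ 0 := by
  have v1 : Vd m [(true, 0), (true, 1)] := by
    intro l hl
    simp only [List.mem_cons, List.not_mem_nil, or_false] at hl
    rcases hl with rfl | rfl <;> simp <;> omega
  have v2 : Vd m [(true, 1), (true, 0)] := by
    intro l hl
    simp only [List.mem_cons, List.not_mem_nil, or_false] at hl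
    rcases hl with rfl | rfl <;> simp <;> omega
  have e : La m (rr x * ((C κ : ℚ⟦X⟧) • (Ug 0 * Ug 1 - Ug 1 * Ug 0) + (X : ℚ⟦X⟧) • G) * rr y) =
      C κ * (sx' ^ 4 * (valD (cl m (x ++ [(true, 0), (true, 1)] ++ y)) -
        valD (cl m (x ++ [(true, 1), (true, 0)] ++ y)))) + X * La m (rr x * G * rr y) := by
    rw [valD_cl ((hx.app v1).app hy), valD_cl ((hx.app v2).app hy)]
    simp only [rr, rho_append]
    rw [mul_add, add_mul, map_add, comm_eq, mul_smul_comm, smul_mul_assoc, map_smul, mul_smul_comm,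
      smul_mul_assoc, map_smul, mul_smul_comm, smul_mul_assoc, map_smul, mul_sub, sub_mul, map_sub]
    rfl
  rw [e, map_add, coeff_zero_mul, coeff_zero_mul, coeff_zero_mul, map_sub, map_pow, cc_sx', one_pow,
    one_mul, constantCoeff_X, zero_mul, add_zero, constantCoeff_C,
    coeff_zero_cl hC ((hx.app v1).app hy), coeff_zero_cl hC ((hx.app v2).app hy)]
  refine mul_ne_zero hκ ?_
  have l1 : (x ++ [(true, 0), (true, 1)] ++ y).length = (x ++ [(true, 1), (true, 0)] ++ y).length := by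
    simp
  rw [l1, ← mul_sub]
  refine mul_ne_zero (pow_ne_zero _ (by norm_num)) ?_
  rw [sub_ne_zero]
  intro h
  have h' : #(Fx (pf m (x ++ [(true, 0), (true, 1)] ++ y))) = #(Fx (pf m (x ++ [(true, 1), (true, 0)] ++ y))) := by
    exact_mod_cast h
  rw [pf_append] at h2
  have p1 : pf m [(true, 0), (true, 1)] = Equiv.swap ⟨0, by omega⟩ ⟨1, by omega⟩ *
      Equiv.swap ⟨1, by omega⟩ ⟨2, by omega⟩ := by
    rw [pf_cons, pf_cons, pf_nil, mul_one, dif_pos (show 0 + 1 < m by omega),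
      dif_pos (show 1 + 1 < m by omega)]
  have p2 : pf m [(true, 1), (true, 0)] = Equiv.swap ⟨1, by omega⟩ ⟨2, by omega⟩ *
      Equiv.swap ⟨0, by omega⟩ ⟨1, by omega⟩ := by
    rw [pf_cons, pf_cons, pf_nil, mul_one, dif_pos (show 0 + 1 < m by omega),
      dif_pos (show 1 + 1 < m by omega)]
  have key := hL m (pf m x) (pf m y) h2 ⟨0, by omega⟩ ⟨1, by omega⟩ ⟨2, by omega⟩
    (by simp) (by simp) (by simp)
  rw [pf_append, pf_append, pf_append, pf_append, p1, p2] at h'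
  exact key h'

end

end Pool.Agent.K6.H17.HO
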