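import Pool.Agent.K6.H17.HO.Stm

/-!
# LO: the Littlewood-Offord inequality of Erdős (helper75 for helper17)
-/

set_option autoImplicit false

namespace Pool.Agent.K6.H17.HO

open Finset

/-- the places of `I` at which the contribution is the larger one -/
def loT {N : ℕ} (c : Fin N → ℚ) (I : Finset (Fin N)) (S : Fin N → Bool) : Finset I :=
  {i | S i = decide (0 < c i)}

theorem lo_sum {N : ℕ} (c : Fin N → ℚ) (I : Finset (Fin N)) (hc : ∀ i ∈ I, c i ≠ 0)
    (S : Fin N → Bool) : ∑ i, (if S i then c i else 0) =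
      ∑ i ∈ Iᶜ, (if S i then c i else 0) + ∑ i : I, min (c i) 0 + ∑ i ∈ loT c I S, |c i| := by
  have h1 : ∑ i, (if S i then c i else 0) =
      ∑ i ∈ Iᶜ, (if S i then c i else 0) + ∑ i ∈ I, (if S i then c i else 0) := by
    rw [add_comm, Finset.sum_add_sum_compl]
  rw [h1, add_assoc]
  congr 1
  rw [← Finset.sum_coe_sort I, loT, Finset.sum_filter, ← Finset.sum_add_distrib]
  refine Finset.sum_congr rfl fun i _ => ?_
  rcases lt_or_gt_of_ne (hc i i.2) with h | h
  · have h2 : ¬ (0 < c i) := not_lt.2 h.le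
    rw [min_eq_left h.le, abs_of_neg h]
    cases hS : S i <;> simp [h2]
  · rw [min_eq_right h.le, abs_of_pos h]
    cases hS : S i <;> simp [h]

theorem t_LO : S_LO := by
  intro N c I hc v
  classical
  -- the part outside `I`
  have key : ∀ b ∈ (Iᶜ).powerset,
      #{S ∈ ({S : Fin N → Bool | ∑ i, (if S i then c i else 0) = v} : Finset (Fin N → Bool)) |
        ({i ∈ Iᶜ | S i = true} : Finset (Fin N)) = b} ≤ (#I).choose (#I / 2) := by
    intro b _
    set 𝒮 := {S ∈ ({S : Fin N → Bool | ∑ i, (if S i then c i else 0) = v} :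
      Finset (Fin N → Bool)) | ({i ∈ Iᶜ | S i = true} : Finset (Fin N)) = b} with h𝒮
    have hmem : ∀ S ∈ 𝒮, ∑ i, (if S i then c i else 0) = v ∧ ∀ i ∉ I, (S i = true ↔ i ∈ b) := by
      intro S hS
      rw [h𝒮, mem_filter, mem_filter] at hS
      refine ⟨hS.1.2, fun i hi => ?_⟩
      rw [← hS.2, mem_filter, mem_compl]
      exact ⟨fun h => ⟨hi, h⟩, fun h => h.2⟩
    have hinj : Set.InjOn (loT c I) (𝒮 : Set (Fin N → Bool)) := by
      intro S hS S' hS' h
      obtain ⟨-, h2⟩ := hmem S hS
      obtain ⟨-, h2'⟩ := hmem S' hS'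
      funext i
      by_cases hi : i ∈ I
      · have h3 : (⟨i, hi⟩ : I) ∈ loT c I S ↔ (⟨i, hi⟩ : I) ∈ loT c I S' := by rw [h]
        simp only [loT, mem_filter, mem_univ, true_and] at h3
        revert h3
        cases S i <;> cases S' i <;> cases (decide (0 < c i)) <;> simp
      · have h3 := (h2 i hi).trans (h2' i hi).symm
        revert h3
        cases S i <;> cases S' i <;> simp
    rw [← card_image_of_injOn hinj]
    have hanti : IsAntichain (· ⊆ ·) ((𝒮.image (loT c I) : Finset (Finset I)) : Set (Finset I)) := by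
      intro T hT T' hT' hne hsub
      rw [mem_coe, mem_image] at hT hT'
      obtain ⟨S, hS, rfl⟩ := hT
      obtain ⟨S', hS', rfl⟩ := hT'
      obtain ⟨h1, h2⟩ := hmem S hS
      obtain ⟨h1', h2'⟩ := hmem S' hS'
      rw [lo_sum c I hc] at h1 h1'
      have h3 : ∑ i ∈ Iᶜ, (if S i then c i else 0) = ∑ i ∈ Iᶜ, (if S' i then c i else 0) := by
        refine Finset.sum_congr rfl fun i hi => ?_
        rw [mem_compl] at hi
        have h3 := (h2 i hi).trans (h2' i hi).symm
        by_cases h4 : S i = true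
        · rw [if_pos h4, if_pos (h3.1 h4)]
        · rw [if_neg h4, if_neg (fun h => h4 (h3.2 h))]
      have h4 : ∑ i ∈ loT c I S, |c i| < ∑ i ∈ loT c I S', |c i| := by
        obtain ⟨j, hj, hj'⟩ := Finset.exists_of_ssubset (lt_of_le_of_ne hsub hne)
        exact Finset.sum_lt_sum_of_subset hsub hj hj' (abs_pos.2 (hc j j.2))
          (fun i _ _ => abs_nonneg _)
      linarith
    have h5 := hanti.sperner
    simpa using h5
  have h6 := card_le_mul_card_image_of_maps_to
    (s := ({S : Fin N → Bool | ∑ i, (if S i then c i else 0) = v} : Finset (Fin N → Bool)))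
    (t := (Iᶜ).powerset) (f := fun S => ({i ∈ Iᶜ | S i = true} : Finset (Fin N)))
    (fun S _ => by rw [mem_powerset]; exact filter_subset _ _) _ key
  refine h6.trans (le_of_eq ?_)
  rw [card_powerset, card_compl, Fintype.card_fin, mul_comm]

end Pool.Agent.K6.H17.HO
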