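import Pool.Agent.K6.H17.HO.Stm3

/-!
# The words whose permutation is one cycle have a positive density
-/

set_option autoImplicit false

namespace Pool.Agent.K6.H17.HO

open Finset
open Pool.Agent.Y466.FT (Braid)

namespace Mix

/-- the permutation of a list of letters -/
def pl (m : ℕ) (l : List (Lett m)) : Equiv.Perm (Fin m) :=
  pf m (l.map fun x => (x.1, (x.2 : ℕ)))

lemma pl_append (m : ℕ) (l l' : List (Lett m)) : pl m (l ++ l') = pl m l * pl m l' := by
  simp [pl, pf]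

lemma pl_nil (m : ℕ) : pl m [] = 1 := by simp [pl, pf]

lemma pl_cons (m : ℕ) (x : Lett m) (l : List (Lett m)) : pl m (x :: l) = pl m [x] * pl m l := by
  rw [← pl_append]; rfl

lemma pl_single (m : ℕ) (x : Lett m) : ∃ a b : Fin m, a ≠ b ∧ pl m [x] = Equiv.swap a b := by
  have h : (x.2 : ℕ) + 1 < m := by have := x.2.2; omega
  refine ⟨⟨x.2, by omega⟩, ⟨x.2 + 1, h⟩, by simp [Fin.ext_iff], ?_⟩
  simp [pl, pf, h]

lemma pl_sq (m : ℕ) (x : Lett m) : pl m [x] * pl m [x] = 1 := by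
  obtain ⟨a, b, _, h⟩ := pl_single m x
  rw [h, Equiv.swap_mul_self]

lemma sign_pl (m : ℕ) (l : List (Lett m)) :
    Equiv.Perm.sign (pl m l) = (-1) ^ l.length := by
  induction l with
  | nil => simp [pl_nil]
  | cons x l ih =>
    obtain ⟨a, b, hab, h⟩ := pl_single m x
    rw [pl_cons, map_mul, ih, h, Equiv.Perm.sign_swap hab, List.length_cons, pow_succ, mul_comm]

lemma ex_pl (m : ℕ) (hm : 2 ≤ m) (π : Equiv.Perm (Fin m)) : ∃ l : List (Lett m), pl m l = π := by
  obtain ⟨k, rfl⟩ : ∃ k, m = k + 1 := ⟨m - 1, by omega⟩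
  have h : π ∈ Submonoid.closure (Set.range fun i : Fin k ↦ Equiv.swap i.castSucc i.succ) := by
    rw [Equiv.Perm.mclosure_swap_castSucc_succ]; trivial
  induction h using Submonoid.closure_induction with
  | mem x hx =>
    obtain ⟨i, rfl⟩ := hx
    refine ⟨[(true, ⟨i, by simp⟩)], ?_⟩
    have h : (i : ℕ) + 1 < k + 1 := by omega
    simp only [pl, pf, List.map_cons, List.map_nil, List.prod_cons, List.prod_nil, mul_one, h,
      dite_true]
    rfl
  | one => exact ⟨[], pl_nil _⟩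
  | mul x y _ _ hx hy =>
    obtain ⟨l, rfl⟩ := hx
    obtain ⟨l', rfl⟩ := hy
    exact ⟨l ++ l', pl_append _ _ _⟩

lemma pad (m : ℕ) (hm : 2 ≤ m) (l : List (Lett m)) (k : ℕ) :
    ∃ l' : List (Lett m), pl m l' = pl m l ∧ l'.length = l.length + 2 * k := by
  induction k with
  | zero => exact ⟨l, rfl, by simp⟩
  | succ k ih =>
    obtain ⟨l', h, h'⟩ := ih
    let x : Lett m := (true, ⟨0, by omega⟩)
    refine ⟨x :: x :: l', ?_, by simp [h']; ring⟩
    rw [pl_cons m x (x :: l'), pl_cons m x l', ← mul_assoc, pl_sq, one_mul, h]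

lemma ex_L (m : ℕ) (hm : 2 ≤ m) : ∃ L : ℕ, ∀ π : Equiv.Perm (Fin m),
    Equiv.Perm.sign π = (-1) ^ L → ∃ l : List (Lett m), pl m l = π ∧ l.length = L := by
  choose f hf using ex_pl m hm
  refine ⟨∑ π, (f π).length, fun π h => ?_⟩
  set L := ∑ π, (f π).length with hL
  have hle : (f π).length ≤ L := Finset.single_le_sum (f := fun π => (f π).length)
    (fun _ _ => Nat.zero_le _) (Finset.mem_univ π)
  have hs := sign_pl m (f π)
  rw [hf, h] at hs
  have heven : Even (L - (f π).length) := by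
    have : ((-1 : ℤˣ)) ^ (L - (f π).length) = 1 := by
      have h2 : ((-1 : ℤˣ)) ^ L = (-1) ^ (L - (f π).length) * (-1) ^ (f π).length := by
        rw [← pow_add]; congr 1; omega
      rw [h2] at hs
      exact mul_eq_right.1 hs
    by_contra hodd
    rw [Nat.not_even_iff_odd] at hodd
    rw [hodd.neg_one_pow] at this
    exact absurd this (by decide)
  obtain ⟨k, hk⟩ := heven
  obtain ⟨l', h1, h2⟩ := pad m hm (f π) k
  exact ⟨l', by rw [h1, hf], by omega⟩

lemma pf_toB (m n : ℕ) (w : Fin n → Lett m) : pf m (toB w) = pl m (List.ofFn w) := by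
  unfold toB pl
  rw [List.map_ofFn]
  rfl

end Mix

open Mix in
theorem t_MIX : S_MIX := by
  intro m
  rcases Nat.lt_or_ge m 2 with hm | hm
  · refine ⟨1, one_pos, fun n ⟨w, hw⟩ => ?_⟩
    have h0 : (2 * (m - 1) : ℕ) = 0 := by omega
    rw [h0, one_mul]
    rcases Nat.eq_zero_or_pos n with hn | hn
    · subst hn
      simp only [pow_zero]
      have : 0 < #{w : Fin 0 → Lett m | #(Fx (pf m (toB w))) = 2} :=
        Finset.card_pos.2 ⟨w, Finset.mem_filter.2 ⟨Finset.mem_univ _, hw⟩⟩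
      exact_mod_cast this
    · rw [Nat.cast_zero, zero_pow hn.ne']
      positivity
  obtain ⟨L, hL⟩ := ex_L m hm
  have hb : (1 : ℝ) ≤ ((2 * (m - 1) : ℕ) : ℝ) := by
    have : 1 ≤ 2 * (m - 1) := by omega
    exact_mod_cast this
  refine ⟨(((2 * (m - 1) : ℕ) : ℝ) ^ L)⁻¹, by positivity, fun n ⟨w0, hw0⟩ => ?_⟩
  rcases Nat.lt_or_ge n L with hn | hn
  · have h1 : 0 < #{w : Fin n → Lett m | #(Fx (pf m (toB w))) = 2} :=
      Finset.card_pos.2 ⟨w0, Finset.mem_filter.2 ⟨Finset.mem_univ _, hw0⟩⟩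
    have h2 : (1 : ℝ) ≤ #{w : Fin n → Lett m | #(Fx (pf m (toB w))) = 2} := by exact_mod_cast h1
    refine le_trans ?_ h2
    rw [inv_mul_le_iff₀ (by positivity), mul_one]
    exact pow_le_pow_right₀ hb hn.le
  obtain ⟨k, rfl⟩ : ∃ k, n = k + L := ⟨n - L, by omega⟩
  -- the words with the permutation of `w0`
  have hu : ∀ w1 : Fin k → Lett m, ∃ u : Fin L → Lett m,
      pf m (toB (Fin.append w1 u)) = pf m (toB w0) := by
    intro w1
    obtain ⟨l, h1, h2⟩ := hL ((pf m (toB w1))⁻¹ * pf m (toB w0)) (by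
      rw [map_mul, Equiv.Perm.sign_inv, pf_toB, pf_toB, sign_pl, sign_pl, List.length_ofFn,
        List.length_ofFn, pow_add, ← mul_assoc, ← pow_add, ← two_mul, pow_mul]
      simp)
    subst h2
    refine ⟨l.get, ?_⟩
    rw [pf_toB, List.ofFn_fin_append, pl_append, List.ofFn_get, h1, pf_toB, pf_toB]
    group
  choose u hu using hu
  have hcard : (2 * (m - 1)) ^ k ≤ #{w : Fin (k + L) → Lett m | #(Fx (pf m (toB w))) = 2} := by
    have h1 : Fintype.card (Fin k → Lett m) = (2 * (m - 1)) ^ k := by simp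
    rw [← h1, ← Finset.card_univ]
    refine Finset.card_le_card_of_injOn (fun w1 => Fin.append w1 (u w1)) ?_ ?_
    · intro w1 _
      simp only [Finset.coe_filter, Finset.mem_univ, true_and, Set.mem_ofPred_eq]
      rw [hu]; exact hw0
    · intro a _ b _ hab
      funext i
      have := congrFun hab (Fin.castAdd L i)
      simpa using this
  have h3 : (((2 * (m - 1) : ℕ) : ℝ)) ^ k ≤ #{w : Fin (k + L) → Lett m | #(Fx (pf m (toB w))) = 2} := by
    exact_mod_cast hcard
  refine le_trans (le_of_eq ?_) h3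
  rw [pow_add]
  field_simp

end Pool.Agent.K6.H17.HO
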