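import Pool.Agent.K6.H17.HO.Stm2

/-!
# The state model of a closed braid as a linear functional of the operator of the braid
-/

set_option autoImplicit false

namespace Pool.Agent.K6.H17.HO

open Pool.Agent.H835R2.Knot (Piece Word Front Fits run comps Move crossingSet switchAt up dn sw)
open Pool.Agent.H838R2.SL (opD toO opD_append opD_cons dir_run dir_act)
open Pool.Agent.H838R2.Jones
open Pool.Agent.Helper454.Wh (insD delD swpD noD OPiece OWord)
open Pool.Agent.Y466.FT (Braid draw piece)
open Pool.Agent.K6.H17.LC (lc)

section
variable {R : Type} [CommRing R] (s s' : R)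

/-- the directions after the maxima -/
def dm (m : ℕ) : ℕ → Bool := fun p => if p < m then true else if p < 2 * m then false else true

theorem topm_succO (m : ℕ) : topm (m + 1) = topm m ++ [Piece.birth m true] := by
  unfold topm
  rw [List.range_succ, List.map_append]
  rfl

theorem run_append' (u w : Word) (A : Front) : run (u ++ w) A = run w (run u A) := by
  induction u generalizing A with
  | nil => rfl
  | cons p u ih => exact ih _

theorem dir_topm (m : ℕ) : (run (topm m) Front.empty).dir = dm m := by
  induction m with
  | zero => rfl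
  | succ m ih =>
    rw [topm_succO, run_append']
    show ((Piece.birth m true).act _).dir = _
    funext p
    show (if p < m then (run (topm m) Front.empty).dir p else if p = m then true else if p = m + 1 then
      !true else (run (topm m) Front.empty).dir (p - 2)) = _
    rw [ih]
    unfold dm
    split_ifs <;> first | rfl | (exfalso; omega)

theorem swp_dm {m i : ℕ} (h : i + 1 < m) : swpD i (dm m) = dm m := by
  funext p
  simp only [swpD, dm]
  split_ifs <;> first | rfl | (exfalso; omega)

/-- the generators as operators -/
def UL (i : ℕ) : F R →ₗ[R] F R := (Dl s i).comp (Bl s' i)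

/-- a letter as an operator -/
def Lt (l : Bool × ℕ) : Module.End R (F R) :=
  (lc s s' l.1).1 • (1 : Module.End R (F R)) + (lc s s' l.1).2 • (UL s s' l.2 : Module.End R (F R))

theorem op_letter' {m : ℕ} (l : Bool × ℕ) (h : l.2 + 1 < m) (f : F R) :
    opP s s' (toO (piece l)) (dm m) f = Lt s s' l f := by
  obtain ⟨b, i⟩ := l
  have h : i + 1 < m := h
  have e : (dm m i == dm m (i + 1)) = true := by
    simp only [dm]
    rw [if_pos (by omega), if_pos (by omega)]
    rfl
  cases b
  · show Xl s s' (cN s s' (dm m i == dm m (i + 1))) i f = _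
    rw [e, Xl_apply]
    rfl
  · show Xl s s' (cP s s' (dm m i == dm m (i + 1))) i f = _
    rw [e, Xl_apply]
    rfl

theorem nxt_letter' {m : ℕ} (l : Bool × ℕ) (h : l.2 + 1 < m) : nxt (toO (piece l)) (dm m) = dm m := by
  obtain ⟨b, i⟩ := l
  cases b
  · exact swp_dm h
  · exact swp_dm h

/-- the operator of a braid word -/
def rho (w : Braid) : Module.End R (F R) := (w.map (Lt s s')).prod

theorem rho_nil : rho s s' [] = 1 := rfl
theorem rho_append (u w : Braid) : rho s s' (u ++ w) = rho s s' u * rho s s' w := by
  unfold rho
  rw [List.map_append, List.prod_append]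
theorem rho_cons (l : Bool × ℕ) (w : Braid) : rho s s' (l :: w) = Lt s s' l * rho s s' w := by
  unfold rho
  rw [List.map_cons, List.prod_cons]

theorem op_drawO {m : ℕ} (w : Braid) (hw : ∀ l ∈ w, l.2 + 1 < m) (y : Word) (f : F R) :
    opD s s' (draw w ++ y) (dm m) f = rho s s' w (opD s s' y (dm m) f) := by
  induction w with
  | nil => rfl
  | cons l w ih =>
    have hl : l.2 + 1 < m := hw l List.mem_cons_self
    rw [rho_cons]
    show opP s s' (toO (piece l)) (dm m) (opD s s' (draw w ++ y) (nxt (toO (piece l)) (dm m)) f) = _
    rw [nxt_letter' l hl, ih (fun l' h' => hw l' (List.mem_cons_of_mem _ h')), op_letter' s s' l hl]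
    rfl

/-- the functional -/
def Lam (m : ℕ) : Module.End R (F R) →ₗ[R] R where
  toFun E := opD s s' (topm m) (fun _ => true) (E (opD s s' (botm m) (dm m) 1)) (fun _ => false)
  map_add' E E' := by
    rw [LinearMap.add_apply, map_add]; rfl
  map_smul' c E := by
    rw [LinearMap.smul_apply, map_smul]; rfl

theorem val_cl {m : ℕ} (w : Braid) (hw : ∀ l ∈ w, l.2 + 1 < m) :
    opD s s' (cl m w) (fun _ => true) 1 (fun _ => false) = Lam s s' m (rho s s' w) := by
  show opD s s' (topm m ++ draw w ++ botm m) Front.empty.dir 1 (fun _ => false) = _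
  rw [List.append_assoc, opD_append, dir_topm, op_drawO s s' w hw]
  rfl

end

end Pool.Agent.K6.H17.HO
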