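import Mathlib

/-!
# Statements of the independent pieces (random braid words and Vassiliev invariants of higher order)
-/

set_option autoImplicit false

namespace Pool.Agent.K6.H17.HO

open Finset

/-! ### counting -/

/-- exchange the values `a` and `b` at the places of `S` -/
def tog {β : Type} [DecidableEq β] (a b : β) {N : ℕ} (S : Fin N → Bool) (B : Fin N → β) : Fin N → β :=
  fun i => if S i then Equiv.swap a b (B i) else B i

/-- the number of the places with the value `a` or `b` -/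
def nact {β : Type} [DecidableEq β] (a b : β) {N : ℕ} (B : Fin N → β) : ℕ :=
  #{i | B i = a ∨ B i = b}

/-- Littlewood-Offord, Erdős -/
def S_LO : Prop := ∀ (N : ℕ) (c : Fin N → ℚ) (I : Finset (Fin N)), (∀ i ∈ I, c i ≠ 0) → ∀ v : ℚ,
  #{S : Fin N → Bool | ∑ i, (if S i then c i else 0) = v} ≤ 2 ^ (N - #I) * (#I).choose (#I / 2)

def S_CH : Prop := ∀ g : ℕ, (g + 1) * (g.choose (g / 2)) ^ 2 ≤ 4 ^ g

def S_BIN : Prop := ∀ (β : Type) [Fintype β] [DecidableEq β] (a b : β), a ≠ b → ∀ N : ℕ,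
  ∑ B : Fin N → β, (1 : ℝ) / (nact a b B + 1) ≤ (Fintype.card β : ℝ) ^ (N + 1) / (2 * (N + 1))

/-- to be proved from `S_CH` and `S_BIN` -/
def S_AVG : Prop := ∀ (β : Type) [Fintype β] [DecidableEq β] (a b : β), a ≠ b →
  ∀ (N : ℕ) (F : (Fin N → β) → ℝ) (K : ℝ), 0 ≤ K →
    (∀ B, ∑ S : Fin N → Bool, F (tog a b S B) ≤
      K * ((2 : ℝ) ^ (N - nact a b B) * ((nact a b B).choose (nact a b B / 2) : ℝ))) →
    ∑ B, F B ≤ K * (Fintype.card β : ℝ) ^ N * Real.sqrt ((Fintype.card β : ℝ) / (2 * (N + 1)))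

/-! ### permutations and two-colourings -/

/-- the colourings which are fixed by the permutation -/
def Fx {m : ℕ} (π : Equiv.Perm (Fin m)) : Finset (Fin m → Bool) := {b | ∀ i, b (π i) = b i}

/-- `#(Fx π) = 2` means that `π` is one cycle -/
def S_COL : Prop := ∀ (m : ℕ) (u v : Equiv.Perm (Fin m)), #(Fx (u * v)) = 2 →
  ∀ p q r : Fin m, p ≠ q → q ≠ r → p ≠ r →
    #(Fx (u * (Equiv.swap p q * Equiv.swap q r) * v)) ≠ #(Fx (u * (Equiv.swap q r * Equiv.swap p q) * v))

/-! ### algebra over the power series -/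

open PowerSeries in
/-- expansion of a product with factors `E i + X ^ k • D i` -/
def S_ALG : Prop := ∀ (A : Type) [Ring A] [Algebra (PowerSeries ℚ) A]
    (Λ : A →ₗ[PowerSeries ℚ] PowerSeries ℚ) (k : ℕ), 1 ≤ k → ∀ (N : ℕ) (E D : Fin N → A) (u v : A),
  (∀ (S : Fin N → Bool) (j : ℕ), j < k →
    coeff j (Λ (u * (List.ofFn fun i => if S i then E i + (X ^ k : PowerSeries ℚ) • D i else E i).prod * v)) =
      coeff j (Λ (u * (List.ofFn E).prod * v))) ∧
  ∃ c : Fin N → ℚ,
    (∀ S : Fin N → Bool,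
      coeff k (Λ (u * (List.ofFn fun i => if S i then E i + (X ^ k : PowerSeries ℚ) • D i else E i).prod * v)) =
        coeff k (Λ (u * (List.ofFn E).prod * v)) + ∑ i, if S i then c i else 0) ∧
    ∀ i : Fin N, c i = coeff 0 (Λ (u * ((List.ofFn E).take i).prod * D i *
      ((List.ofFn E).drop (i + 1)).prod * v))

section
open PowerSeries
variable {A : Type} [Ring A] [Algebra (PowerSeries ℚ) A]

noncomputable def sx : PowerSeries ℚ := 1 + X
noncomputable def sx' : PowerSeries ℚ := (1 + X)⁻¹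

/-- Temperley-Lieb relations, the value of the loop is `-(sx + sx')` -/
structure TL (U : Fin 2 → A) : Prop where
  sq : ∀ i, U i * U i = (-(sx + sx')) • U i
  aba : U 0 * U 1 * U 0 = U 0
  bab : U 1 * U 0 * U 1 = U 1

/-- a letter: `-sx - sx² U` (positive) or `-sx' - sx'² U` (negative, the inverse) -/
noncomputable def el (U : Fin 2 → A) (x : Fin 2 × Bool) : A :=
  if x.2 then (-sx) • (1 : A) + (-sx ^ 2) • U x.1 else (-sx') • (1 : A) + (-sx' ^ 2) • U x.1

end

open PowerSeries in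
/-- iterated commutators of `σ₀²` with `[σ₀², σ₁²]` and their leading terms -/
def S_GAD : Prop := ∀ j : ℕ, ∃ l : List (Fin 2 × Bool), l ≠ [] ∧ ∃ κ : ℚ, κ ≠ 0 ∧
  ∀ (A : Type) [Ring A] [Algebra (PowerSeries ℚ) A] (U : Fin 2 → A), TL U →
    ∃ G : A, (l.map fun x => el U x * el U x).prod =
      1 + (X ^ (2 * j + 2) : PowerSeries ℚ) • ((C κ : PowerSeries ℚ) • (U 0 * U 1 - U 1 * U 0) +
        (X : PowerSeries ℚ) • G)

end Pool.Agent.K6.H17.HO
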