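import Pool.Agent.K6.H17.LC.Vas
import Pool.Agent.K6.H17.HO.Stm

/-!
# Closed braids with `m` strands as sliced diagrams: statements of two pieces
-/

set_option autoImplicit false

namespace Pool.Agent.K6.H17.HO

open Finset
open Pool.Agent.H835R2.Knot (Word Piece IsKnot)
open Pool.Agent.H838R2.SL (opD)
open Pool.Agent.Y466.FT (Braid draw)

/-- the maxima of the closure of a braid with `m` strands -/
def topm (m : ℕ) : Word := (List.range m).map fun i => Piece.birth i true
/-- the minima -/
def botm : ℕ → Word
  | 0 => []
  | m + 1 => Piece.death m :: botm m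
/-- the closure of the braid word `w` with `m` strands (directed downwards; all letters have to be
between the strands `i` and `i + 1 < m`) -/
def cl (m : ℕ) (w : Braid) : Word := topm m ++ draw w ++ botm m

/-- the permutation of the strands -/
def pf (m : ℕ) (w : Braid) : Equiv.Perm (Fin m) :=
  (w.map fun l => if h : l.2 + 1 < m then Equiv.swap ⟨l.2, by omega⟩ ⟨l.2 + 1, h⟩ else (1 : Equiv.Perm (Fin m))).prod

/-- the value of the state model of a closed braid at `s = s' = 1` -/
def S_CHI : Prop := ∀ (m : ℕ) (w : Braid), (∀ l ∈ w, l.2 + 1 < m) →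
  opD (1 : ℚ) 1 (cl m w) (fun _ => true) 1 (fun _ => false) = (-1) ^ (w.length + m) * (#(Fx (pf m w)) : ℚ)

/-- whether the closure is a knot does not depend on the signs of the letters -/
def S_CAT : Prop := ∀ (m : ℕ) (w w' : Braid), w.map Prod.snd = w'.map Prod.snd →
  (IsKnot (cl m w) ↔ IsKnot (cl m w'))

end Pool.Agent.K6.H17.HO
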