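import Pool.Agent.K6.H17.HO.Stm2

/-!
# Statements: which closed braids are knots, and how many of the words
-/

set_option autoImplicit false

namespace Pool.Agent.K6.H17.HO

open Finset
open Pool.Agent.H835R2.Knot (Word Piece IsKnot)
open Pool.Agent.Y466.FT (Braid draw piece)

/-- a letter of the braid group with `m` strands -/
abbrev Lett (m : ℕ) : Type := Bool × Fin (m - 1)

/-- the word as a list -/
def toB {m n : ℕ} (w : Fin n → Lett m) : Braid := List.ofFn fun j => ((w j).1, ((w j).2 : ℕ))

/-- The closure of a braid word is a knot if and only if the permutation has one cycle. -/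
def S_KNO : Prop := ∀ (m : ℕ) (w : Braid), (∀ l ∈ w, l.2 + 1 < m) →
  (IsKnot (cl m w) ↔ #(Fx (pf m w)) = 2)

/-- The words whose permutation is one cycle have a positive density (if there are any) -/
def S_MIX : Prop := ∀ m : ℕ, ∃ c : ℝ, 0 < c ∧ ∀ n : ℕ,
  (∃ w : Fin n → Lett m, #(Fx (pf m (toB w))) = 2) →
    c * ((2 * (m - 1) : ℕ) : ℝ) ^ n ≤ #{w : Fin n → Lett m | #(Fx (pf m (toB w))) = 2}

end Pool.Agent.K6.H17.HO
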