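import Pool.Agent.K6.H17.HO.Key

/-!
# Exchanging windows
-/

set_option autoImplicit false

namespace Pool.Agent.K6.H17.HO

open Finset
open Pool.Agent.H835R2.Knot (Piece Word Front IsKnot IsInvariant DegreeLE circle)
open Pool.Agent.H838R2.SL (opD valD hsx)
open Pool.Agent.H838R2.Jones
open Pool.Agent.Y466.FT (Braid draw piece)
open Pool.Agent.K6.H17.LC (lc vn vn_inv vn_deg opD_map)
open PowerSeries

noncomputable section

/-- the word of the blocks -/
def flat {m L N : ℕ} (B : Fin N → Fin L → Lett m) : Braid := (List.ofFn fun i => toB (B i)).flatten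

theorem rho_flatten (Ls : List Braid) : rr Ls.flatten = (Ls.map rr).prod := by
  induction Ls with
  | nil => rfl
  | cons u Ls ih =>
    rw [List.flatten_cons, List.map_cons, List.prod_cons, ← ih]
    exact rho_append _ _ _ _

theorem rho_flat {m L N : ℕ} (B : Fin N → Fin L → Lett m) :
    rr (flat B) = (List.ofFn fun i => rr (toB (B i))).prod := by
  unfold flat
  rw [rho_flatten, List.map_ofFn]
  rfl

theorem Vd_flatten {m : ℕ} (Ls : List Braid) (h : ∀ u ∈ Ls, Vd m u) : Vd m Ls.flatten := by
  intro l hl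
  rw [List.mem_flatten] at hl
  obtain ⟨u, hu, hl⟩ := hl
  exact h u hu l hl

theorem Vd_flat {m L N : ℕ} (B : Fin N → Fin L → Lett m) : Vd m (flat B) := by
  refine Vd_flatten _ fun u hu => ?_
  rw [List.mem_ofFn] at hu
  obtain ⟨i, rfl⟩ := hu
  exact toB_valid _

variable {m k : ℕ}

/-- the difference of the two words of a window -/
def Window.H (W : Window m k) : Module.End ℚ⟦X⟧ (F ℚ⟦X⟧) :=
  (C W.κ : ℚ⟦X⟧) • (Ug 0 * Ug 1 - Ug 1 * Ug 0) + (X : ℚ⟦X⟧) • W.G

/-- the change of a block -/
def Window.D (W : Window m k) (x : Fin W.L → Lett m) : Module.End ℚ⟦X⟧ (F ℚ⟦X⟧) :=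
  if x = W.a then -W.H else if x = W.b then W.H else 0

theorem tog_rr (W : Window m k) {N : ℕ} (S : Fin N → Bool) (B : Fin N → Fin W.L → Lett m) (i : Fin N) :
    rr (toB (tog W.a W.b S B i)) =
      if S i then rr (toB (B i)) + (X ^ k : ℚ⟦X⟧) • W.D (B i) else rr (toB (B i)) := by
  have ra : rr (toB W.a) = 1 + (X ^ k : ℚ⟦X⟧) • W.H := W.ra
  have rb : rr (toB W.b) = 1 := W.rb
  unfold tog
  cases hS : S i
  · simp
  · simp only [if_true]
    unfold Window.D
    by_cases h1 : B i = W.a
    · rw [h1, Equiv.swap_apply_left, if_pos rfl, rb, ra, smul_neg]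
      abel
    · rw [if_neg h1]
      by_cases h2 : B i = W.b
      · rw [h2, Equiv.swap_apply_right, if_pos rfl, rb, ra]
      · rw [if_neg h2, Equiv.swap_apply_of_ne_of_ne h1 h2, smul_zero, add_zero]

theorem tog_snd (W : Window m k) {N : ℕ} (S : Fin N → Bool) (B : Fin N → Fin W.L → Lett m) :
    (flat (tog W.a W.b S B)).map Prod.snd = (flat B).map Prod.snd := by
  have h : ∀ i, (toB (tog W.a W.b S B i)).map Prod.snd = (toB (B i)).map Prod.snd := by
    intro i
    have hab : (toB W.a).map Prod.snd = (toB W.b).map Prod.snd := by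
      unfold toB
      rw [List.map_ofFn, List.map_ofFn]
      congr 1
      funext j
      exact congrArg (fun z : Fin (m - 1) => (z : ℕ)) (W.pl j)
    unfold tog
    split_ifs
    · by_cases h1 : B i = W.a
      · rw [h1, Equiv.swap_apply_left, hab]
      · by_cases h2 : B i = W.b
        · rw [h2, Equiv.swap_apply_right, hab]
        · rw [Equiv.swap_apply_of_ne_of_ne h1 h2]
    · rfl
  unfold flat
  rw [List.map_flatten, List.map_flatten, List.map_ofFn, List.map_ofFn]
  congr 2
  funext i
  exact h i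

/-- the invariants up to the order `2 r` -/
def Jp (m : ℕ) (V : ℕ → ℚ) (r : ℕ) (w : Braid) : Prop :=
  IsKnot (cl m w) ∧ ∀ j ≤ 2 * r, vn j (cl m w) = V j

theorem nact_eq {β : Type} [DecidableEq β] {a b : β} {N : ℕ} (B : Fin N → β) :
    nact a b B = #(univ.filter fun i => B i = a ∨ B i = b) := rfl

theorem neg_lem {A : Type} [Ring A] [Algebra ℚ⟦X⟧ A] (Λ : A →ₗ[ℚ⟦X⟧] ℚ⟦X⟧) (x h y : A) :
    coeff 0 (Λ (x * (-h) * y)) ≠ 0 ↔ coeff 0 (Λ (x * h * y)) ≠ 0 := by
  rw [mul_neg, neg_mul, map_neg, map_neg, neg_ne_zero]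

open Classical in
/-- exchanging windows of order `2 r + 2` -/
theorem tog_main (hLO : S_LO) (hCO : S_COL) (hA : S_ALG) (hC : S_CHI) (hK : S_CAT) (hm : 3 ≤ m) {r : ℕ}
    (W : Window m (2 * r + 2)) (V : ℕ → ℚ) {N : ℕ} (B : Fin N → Fin W.L → Lett m) {u q : Braid}
    (hu : Vd m u) (hq : Vd m q) :
    (∀ S, Jp m V (r + 1) (u ++ flat (tog W.a W.b S B) ++ q) → Jp m V r (u ++ flat B ++ q)) ∧
    (Jp m V r (u ++ flat B ++ q) →
      #{S : Fin N → Bool | Jp m V (r + 1) (u ++ flat (tog W.a W.b S B) ++ q)} ≤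
        2 ^ (N - nact W.a W.b B) * (nact W.a W.b B).choose (nact W.a W.b B / 2)) := by
  obtain ⟨h1, c, h2, h3⟩ := hA _ (La m) (2 * r + 2) (by omega) N (fun i => rr (toB (B i)))
    (fun i => W.D (B i)) (rr u) (rr q)
  have e : ∀ B' : Fin N → Fin W.L → Lett m, valD (cl m (u ++ flat B' ++ q)) =
      La m (rr u * (List.ofFn fun i => rr (toB (B' i))).prod * rr q) := by
    intro B'
    rw [valD_cl ((hu.app (Vd_flat _)).app hq)]
    simp only [rr, rho_append]
    rw [← rho_flat]
  have e' : ∀ S : Fin N → Bool, valD (cl m (u ++ flat (tog W.a W.b S B) ++ q)) =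
      La m (rr u * (List.ofFn fun i => if S i then rr (toB (B i)) + (X ^ (2 * r + 2) : ℚ⟦X⟧) •
        W.D (B i) else rr (toB (B i))).prod * rr q) := by
    intro S
    have ef : (fun i => rr (toB (tog W.a W.b S B i))) = fun i => if S i then rr (toB (B i)) +
        (X ^ (2 * r + 2) : ℚ⟦X⟧) • W.D (B i) else rr (toB (B i)) := funext fun i => tog_rr W S B i
    rw [e, ef]
  have hk : ∀ S : Fin N → Bool, IsKnot (cl m (u ++ flat (tog W.a W.b S B) ++ q)) ↔
      IsKnot (cl m (u ++ flat B ++ q)) := by
    intro S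
    refine hK _ _ _ ?_
    rw [List.map_append, List.map_append, List.map_append, List.map_append, tog_snd]
  constructor
  · rintro S ⟨k1, k2⟩
    refine ⟨(hk S).1 k1, fun j hj => ?_⟩
    rw [← k2 j (by omega)]
    show coeff j (valD _) = coeff j (valD _)
    rw [e, e', h1 S j (by omega)]
  · rintro ⟨k1, -⟩
    set I : Finset (Fin N) := univ.filter fun i => B i = W.a ∨ B i = W.b with hI
    have hI' : nact W.a W.b B = #I := nact_eq B
    rw [hI']
    have hne : ∀ i ∈ I, c i ≠ 0 := by
      intro i hi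
      rw [hI, mem_filter] at hi
      set Ls : List Braid := List.ofFn fun i => toB (B i) with hLs
      have v1 : ∀ w ∈ Ls, Vd m w := by
        intro w hw
        rw [hLs, List.mem_ofFn] at hw
        obtain ⟨j, rfl⟩ := hw
        exact toB_valid _
      have hx : Vd m (u ++ (Ls.take i).flatten) :=
        hu.app (Vd_flatten _ fun w hw => v1 w (List.mem_of_mem_take hw))
      have hy : Vd m ((Ls.drop (i + 1)).flatten ++ q) :=
        (Vd_flatten _ fun w hw => v1 w (List.mem_of_mem_drop hw)).app hq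
      have el : (List.ofFn fun i => rr (toB (B i))) = Ls.map rr := by
        rw [hLs, List.map_ofFn]
        rfl
      have e1 : rr u * ((List.ofFn fun i => rr (toB (B i))).take i).prod =
          rr (u ++ (Ls.take i).flatten) := by
        rw [el, ← List.map_take, ← rho_flatten]
        exact (rho_append _ _ _ _).symm
      have e2 : ((List.ofFn fun i => rr (toB (B i))).drop (i + 1)).prod * rr q =
          rr ((Ls.drop (i + 1)).flatten ++ q) := by
        rw [el, ← List.map_drop, ← rho_flatten]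
        exact (rho_append _ _ _ _).symm
      have hlen : (i : ℕ) < Ls.length := by rw [hLs, List.length_ofFn]; exact i.2
      have hget : Ls[(i : ℕ)] = toB (B i) := by
        simp [hLs]
      have hpi : pf m (toB (B i)) = 1 := by
        rcases hi.2 with h | h
        · rw [h, W.pfa]
        · rw [h, W.pfb]
      have e3 : pf m ((u ++ (Ls.take i).flatten) ++ ((Ls.drop (i + 1)).flatten ++ q)) =
          pf m (u ++ flat B ++ q) := by
        have : flat B = (Ls.take i).flatten ++ (toB (B i) ++ (Ls.drop (i + 1)).flatten) := by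
          show Ls.flatten = _
          conv_lhs => rw [← List.take_append_drop (i : ℕ) Ls, List.drop_eq_getElem_cons hlen, hget,
            List.flatten_append, List.flatten_cons]
        rw [this]
        simp only [pf_append, hpi, one_mul, mul_assoc]
      have hF : #(Fx (pf m ((u ++ (Ls.take i).flatten) ++ ((Ls.drop (i + 1)).flatten ++ q)))) = 2 := by
        rw [e3]
        exact knot_Fx hC ((hu.app (Vd_flat _)).app hq) k1
      have e4 := key_ne hC hCO hm hx hy hF W.hκ W.G
      have e5 := h3 i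
      rw [e1, mul_assoc _ _ (rr q), e2] at e5
      rw [e5]
      show coeff 0 (La m (rr (u ++ (Ls.take i).flatten) * W.D (B i) *
        rr ((Ls.drop (i + 1)).flatten ++ q))) ≠ 0
      unfold Window.D
      split_ifs with q1 q2
      · exact (neg_lem _ _ _ _).2 e4
      · exact e4
      · exact absurd hi.2 (by push Not; exact ⟨q1, q2⟩)
    refine le_trans (card_le_card ?_) (hLO N c I hne (V (2 * (r + 1)) -
      coeff (2 * r + 2) (La m (rr u * (List.ofFn fun i => rr (toB (B i))).prod * rr q))))
    intro S hS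
    rw [mem_filter] at hS ⊢
    refine ⟨mem_univ _, ?_⟩
    have h4 := hS.2.2 (2 * (r + 1)) le_rfl
    have h5 := h2 S
    rw [← h4]
    show _ = coeff (2 * (r + 1)) (valD _) - _
    rw [e']
    show _ = coeff (2 * r + 2) _ - _
    rw [h5]
    ring

end

end Pool.Agent.K6.H17.HO
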