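import Pool.Agent.K6.H17.HO.Opr
import Pool.Agent.K6.H17.HO.Stm3
import Pool.Agent.K6.H17.RB.Main

/-!
# Windows in closed braids
-/

set_option autoImplicit false

namespace Pool.Agent.K6.H17.HO

open Finset
open Pool.Agent.H835R2.Knot (Piece Word Front IsKnot IsInvariant DegreeLE circle)
open Pool.Agent.H838R2.SL (opD valD hsx)
open Pool.Agent.H838R2.Jones
open Pool.Agent.Y466.FT (Braid draw piece)
open Pool.Agent.K6.H17.LC (lc vn vn_inv vn_deg)
open PowerSeries

noncomputable section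

theorem hs1 : sx * sx' = 1 := hsx

/-- the generators -/
def Ug (i : Fin 2) : Module.End ℚ⟦X⟧ (F ℚ⟦X⟧) := UL sx sx' i

theorem TL_Ug : TL Ug where
  sq i := by
    refine LinearMap.ext fun f => ?_
    show Dl sx i (Bl sx' i (Dl sx i (Bl sx' i f))) = (-(sx + sx')) • Dl sx i (Bl sx' i f)
    rw [circ, map_smul]
  aba := by
    refine LinearMap.ext fun f => ?_
    show Dl sx 0 (Bl sx' 0 (Dl sx 1 (Bl sx' 1 (Dl sx 0 (Bl sx' 0 f))))) = Dl sx 0 (Bl sx' 0 f)
    rw [zigB hs1 0 (Bl sx' 0 f), zigA hs1 0 (Bl sx' 0 f)]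
  bab := by
    refine LinearMap.ext fun f => ?_
    show Dl sx 1 (Bl sx' 1 (Dl sx 0 (Bl sx' 0 (Dl sx 1 (Bl sx' 1 f))))) = Dl sx 1 (Bl sx' 1 f)
    rw [zigA hs1 0 (Bl sx' 1 f), zigB hs1 0 (Bl sx' 1 f)]

theorem el_Ug (i : Fin 2) (b : Bool) : el Ug (i, b) = Lt sx sx' (b, (i : ℕ)) := by
  cases b <;> rfl

theorem el_mul_inv {A : Type} [Ring A] [Algebra ℚ⟦X⟧ A] {U : Fin 2 → A} (h : TL U) (i : Fin 2) :
    el U (i, true) * el U (i, false) = 1 := by
  have e : sx' * sx = 1 := by rw [mul_comm]; exact hs1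
  have e1 : sx ^ 2 * sx' ^ 2 = 1 := by rw [← mul_pow, hs1, one_pow]
  have e2 : sx * sx' ^ 2 = sx' := by rw [sq, ← mul_assoc, hs1, one_mul]
  have e3 : sx ^ 2 * sx' = sx := by rw [sq, mul_assoc, hs1, mul_one]
  show ((-sx) • (1 : A) + (-sx ^ 2) • U i) * ((-sx') • (1 : A) + (-sx' ^ 2) • U i) = 1
  rw [add_mul, mul_add, mul_add, smul_mul_smul_comm, smul_mul_smul_comm, smul_mul_smul_comm,
    smul_mul_smul_comm, one_mul, one_mul, mul_one, h.sq i, smul_smul, neg_mul_neg, neg_mul_neg,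
    neg_mul_neg, neg_mul_neg, hs1, one_smul, e2, e3, e1, one_mul, add_assoc, ← add_smul,
    ← add_smul]
  have : sx' + (sx + -(sx + sx')) = 0 := by ring
  rw [this, zero_smul, add_zero]

/-- the letters are doubled -/
def dbl (l : List (Fin 2 × Bool)) : Braid := l.flatMap fun x => [(x.2, (x.1 : ℕ)), (x.2, (x.1 : ℕ))]
/-- the letters are cancelled -/
def can (l : List (Fin 2 × Bool)) : Braid := l.flatMap fun x => [(true, (x.1 : ℕ)), (false, (x.1 : ℕ))]

theorem rho_dbl (l : List (Fin 2 × Bool)) :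
    rho sx sx' (dbl l) = (l.map fun x => el Ug x * el Ug x).prod := by
  induction l with
  | nil => rfl
  | cons x l ih =>
    obtain ⟨i, b⟩ := x
    rw [List.map_cons, List.prod_cons, ← ih]
    show rho sx sx' ((b, (i : ℕ)) :: (b, (i : ℕ)) :: dbl l) = _
    rw [rho_cons, rho_cons, el_Ug, mul_assoc]

theorem rho_can (l : List (Fin 2 × Bool)) : rho sx sx' (can l) = 1 := by
  induction l with
  | nil => rfl
  | cons x l ih =>
    obtain ⟨i, b⟩ := x
    show rho sx sx' ((true, (i : ℕ)) :: (false, (i : ℕ)) :: can l) = _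
    rw [rho_cons, rho_cons, ih, mul_one, ← el_Ug, ← el_Ug, el_mul_inv TL_Ug]

/-! ### permutations -/

theorem pf_nil (m : ℕ) : pf m [] = 1 := rfl

theorem pf_append (m : ℕ) (u w : Braid) : pf m (u ++ w) = pf m u * pf m w := by
  unfold pf
  rw [List.map_append, List.prod_append]

theorem pf_cons (m : ℕ) (l : Bool × ℕ) (w : Braid) : pf m (l :: w) =
    (if h : l.2 + 1 < m then Equiv.swap ⟨l.2, by omega⟩ ⟨l.2 + 1, h⟩ else (1 : Equiv.Perm (Fin m))) *
      pf m w := by
  unfold pf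
  rw [List.map_cons, List.prod_cons]

theorem pf_double (m : ℕ) (b b' : Bool) (i : ℕ) (w : Braid) : pf m ((b, i) :: (b', i) :: w) = pf m w := by
  rw [pf_cons, pf_cons, ← mul_assoc]
  split_ifs with h
  · rw [Equiv.swap_mul_self, one_mul]
  · rw [one_mul, one_mul]

theorem pf_dbl (m : ℕ) (l : List (Fin 2 × Bool)) : pf m (dbl l) = 1 := by
  induction l with
  | nil => rfl
  | cons x l ih => exact (pf_double m _ _ _ _).trans ih

theorem pf_can (m : ℕ) (l : List (Fin 2 × Bool)) : pf m (can l) = 1 := by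
  induction l with
  | nil => rfl
  | cons x l ih => exact (pf_double m _ _ _ _).trans ih

/-! ### letters -/

/-- a letter as an element of the list -/
def lt {m : ℕ} (x : Lett m) : Bool × ℕ := (x.1, (x.2 : ℕ))

theorem toB_eq {m n : ℕ} (w : Fin n → Lett m) : toB w = (List.ofFn w).map lt := by
  rw [List.map_ofFn]
  rfl

theorem lt_inj {m : ℕ} : Function.Injective (lt (m := m)) := by
  rintro ⟨b, i⟩ ⟨c, j⟩ h
  simp only [lt, Prod.mk.injEq] at h
  exact Prod.ext h.1 (Fin.ext h.2)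

theorem toB_inj {m n : ℕ} : Function.Injective (toB (m := m) (n := n)) := by
  intro u w h
  rw [toB_eq, toB_eq] at h
  exact List.ofFn_injective (List.map_injective_iff.2 lt_inj h)

theorem toB_valid {m n : ℕ} (w : Fin n → Lett m) : ∀ l ∈ toB w, l.2 + 1 < m := by
  intro l h
  unfold toB at h
  rw [List.mem_ofFn] at h
  obtain ⟨j, rfl⟩ := h
  have := (w j).2.2
  show ((w j).2 : ℕ) + 1 < m
  omega

theorem exists_ofFn {α : Type} (W : List α) {n : ℕ} (h : W.length = n) : ∃ f : Fin n → α, List.ofFn f = W := by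
  subst h
  exact ⟨W.get, List.ofFn_get W⟩

/-- the number of the letters -/
theorem card_Lett (m : ℕ) : Fintype.card (Lett m) = 2 * (m - 1) := by
  rw [Fintype.card_prod, Fintype.card_bool, Fintype.card_fin]

/-- a pair of words with a difference of a given order -/
structure Window (m k : ℕ) where
  L : ℕ
  pos : 0 < L
  a : Fin L → Lett m
  b : Fin L → Lett m
  ne : a ≠ b
  pl : ∀ j, (a j).2 = (b j).2
  pfa : pf m (toB a) = 1
  pfb : pf m (toB b) = 1
  rb : rho sx sx' (toB b) = 1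
  κ : ℚ
  hκ : κ ≠ 0
  G : Module.End ℚ⟦X⟧ (F ℚ⟦X⟧)
  ra : rho sx sx' (toB a) = 1 + (X ^ k : ℚ⟦X⟧) • ((C κ : ℚ⟦X⟧) • (Ug 0 * Ug 1 - Ug 1 * Ug 0) +
    (X : ℚ⟦X⟧) • G)

/-- a letter of the group with three strands -/
def inc {m : ℕ} (hm : 3 ≤ m) (x : Fin 2 × Bool) (b : Bool) : Lett m :=
  (b, ⟨x.1, by have := x.1.2; omega⟩)

/-- doubled letters -/
def lA {m : ℕ} (hm : 3 ≤ m) (l : List (Fin 2 × Bool)) : List (Lett m) :=
  l.flatMap fun x => [inc hm x x.2, inc hm x x.2]
/-- cancelled letters -/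
def lB {m : ℕ} (hm : 3 ≤ m) (l : List (Fin 2 × Bool)) : List (Lett m) :=
  l.flatMap fun x => [inc hm x true, inc hm x false]

theorem map_lA {m : ℕ} (hm : 3 ≤ m) (l : List (Fin 2 × Bool)) : (lA hm l).map lt = dbl l := by
  unfold lA dbl
  rw [List.map_flatMap]
  rfl

theorem map_lB {m : ℕ} (hm : 3 ≤ m) (l : List (Fin 2 × Bool)) : (lB hm l).map lt = can l := by
  unfold lB can
  rw [List.map_flatMap]
  rfl

theorem len_lA {m : ℕ} (hm : 3 ≤ m) (l : List (Fin 2 × Bool)) : (lA hm l).length = 2 * l.length := by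
  induction l with
  | nil => rfl
  | cons x l ih =>
    show (lA hm l).length + 1 + 1 = _
    rw [ih, List.length_cons]
    ring

theorem len_lB {m : ℕ} (hm : 3 ≤ m) (l : List (Fin 2 × Bool)) : (lB hm l).length = 2 * l.length := by
  induction l with
  | nil => rfl
  | cons x l ih =>
    show (lB hm l).length + 1 + 1 = _
    rw [ih, List.length_cons]
    ring

theorem snd_lAB {m : ℕ} (hm : 3 ≤ m) (l : List (Fin 2 × Bool)) :
    (lA hm l).map Prod.snd = (lB hm l).map Prod.snd := by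
  unfold lA lB
  rw [List.map_flatMap, List.map_flatMap]
  rfl

theorem window {m : ℕ} (hm : 3 ≤ m) (hG : S_GAD) (r : ℕ) : Nonempty (Window m (2 * r + 2)) := by
  obtain ⟨l, hl, κ, hκ, h⟩ := hG r
  obtain ⟨G, hG'⟩ := h _ Ug TL_Ug
  obtain ⟨a, ha⟩ := exists_ofFn (lA hm l) (len_lA hm l)
  obtain ⟨b, hb⟩ := exists_ofFn (lB hm l) (len_lB hm l)
  have ta : toB a = dbl l := by rw [toB_eq, ha, map_lA]
  have tb : toB b = can l := by rw [toB_eq, hb, map_lB]
  refine ⟨⟨2 * l.length, ?_, a, b, ?_, ?_, ?_, ?_, ?_, κ, hκ, G, ?_⟩⟩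
  · have := List.length_pos_iff.2 hl
    omega
  · rintro rfl
    rw [ta] at tb
    cases l with
    | nil => exact hl rfl
    | cons x l =>
      have h1 : (x.2, (x.1 : ℕ)) :: (x.2, (x.1 : ℕ)) :: dbl l =
        (true, (x.1 : ℕ)) :: (false, (x.1 : ℕ)) :: can l := tb
      simp only [List.cons.injEq, Prod.mk.injEq] at h1
      have h2 := h1.1.1
      rw [h1.2.1.1] at h2
      exact Bool.noConfusion h2
  · have e : List.ofFn (fun j => (a j).2) = List.ofFn (fun j => (b j).2) := by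
      have e1 : (List.ofFn a).map Prod.snd = List.ofFn (Prod.snd ∘ a) := List.map_ofFn
      have e2 : (List.ofFn b).map Prod.snd = List.ofFn (Prod.snd ∘ b) := List.map_ofFn
      rw [ha, snd_lAB] at e1
      rw [hb, e1] at e2
      exact e2
    exact fun j => congrFun (List.ofFn_injective e) j
  · rw [ta, pf_dbl]
  · rw [tb, pf_can]
  · rw [tb, rho_can]
  · rw [ta, rho_dbl, hG']

end

end Pool.Agent.K6.H17.HO
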